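import Pool.Agent.H78.TT.Slp
import Pool.Agent.H78.MIC.IsoF

/-!
# The labels of the cells do not see the last digits of the positions

`slp_P`: the field `Slp` of the cells of a kit. `strt_nd`: the lines of the cells are straight.
-/

set_option autoImplicit false

namespace Pool.STAT

open Finset MvPolynomial
open Pool.Agent.H49.Ent Pool.Agent.H32.Dense Pool.STK Pool.KS3 Pool.KA Pool.KSAT Pool.PB Pool.GEN
open Pool.K2S Pool.S6C
open Pool.STAT.CLO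

variable {Θ : Type*} {I : ℝ → Θ → Prop} {m n₀ : ℕ}

/-- The lines of the cells are straight. -/
theorem strt_nd {J : ℕ} {F : Fam m J} (D : GDat F) (c : ℕ → Fin m) (n : ℕ) (sh : ℕ → ℕ)
    (w₀ z M : ℕ) (g : ℕ → ℕ → ℕ → ℕ) {R : ℕ → ℕ → Type} (ρ : (i j : ℕ) → LnT F → R i j) :
    (D.nd c n sh w₀ z M g ρ).Strt := fun x l => pc_deg c x l

/-- **The labels of the cells do not see the last digits of the positions.** -/
theorem slp_P (hI : MonoI I) {S : PCl m} (Kt : KitP m Θ n₀) (hinj : ∀ p, Inj (Kt.cs p) (n₀ + 1))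
    (hml : ∀ p, ∀ l < n₀ + 1, Kt.ml p l = 1) {T' : ℝ}
    (fcel : ∀ ε' : ℝ, 0 < ε' → EvP I fun p =>
      CellL (n₀ + 1) (Kt.L p) ε' T' (Kt.y p) (Kt.X p) (Kt.la p) (Kt.ml p))
    {K' s₁ : ℕ} {sh : ℕ → ℕ} (hK' : 1 ≤ K') (M : ℕ) :
    EvQ I fun N θ p => Kt.FldN S K' s₁ sh M N θ p fun G J F D q =>
      (Kt.nd p N M θ G F D).Slp G.n J (up G.ζ J) G.M q := by
  obtain ⟨s₂, hs₂⟩ := CLO.slp_gdat (n₀ + 1) Kt.K K' s₁ sh hK'
  obtain ⟨Λ, hΛ⟩ := exists_nat_ge (T' + 3)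
  obtain ⟨N₁, hN₁⟩ := exists_nat_ge (4 * (T' + 2))
  have key := ((iso_num hI Kt hml fcel hΛ sh 0 0 M one_pos).and hI
    (KitP.cel_evQ fcel M)).and hI
    (EvQ.self I (max N₁ 2) (θ₀ := 1 / 16) (by norm_num)
      (ε := fun N _ => 1) (fun N _ _ => one_pos))
  refine key.mono ?_
  rintro N θ p ⟨⟨⟨-, hζ0, hnum⟩, hL⟩, hN, hθ, hθ1, -⟩ b e hnear
  obtain ⟨J₁, hJ₁⟩ := hnum b e hnear
  obtain ⟨ε, hε⟩ : ∃ ε : ℝ, ε = 1 / (64 * (N * (M + 4)) + 1) := ⟨_, rfl⟩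
  rw [← hε] at hL
  have hNN : N₁ ≤ N := (le_max_left _ _).trans hN
  have hN2' : 2 ≤ N := (le_max_right _ _).trans hN
  have hN1 : 1 ≤ N := by omega
  have hNT : 4 * (T' + 2) ≤ N := hN₁.trans (by exact_mod_cast hNN)
  have hε0 : 0 < ε := by rw [hε]; positivity
  have hεN : ε * (64 * (N * (M + 4))) ≤ 1 := by
    rw [hε, one_div, inv_mul_le_iff₀ (by positivity)]
    linarith
  have hs := hL.sideE (B := 1) (by omega : 1 ≤ n₀ + 1) hN1 hNT hN2' le_rfl hε0.le hεN hθ hθ1 hnear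
  have hX := hL.pos
  have hN2 : (2 : ℝ) ≤ N := by exact_mod_cast hN2'
  have hM0 : (0 : ℝ) ≤ M := Nat.cast_nonneg M
  have e1 : N * ((M + 4) * msh (Kt.X p) N M) = Kt.X p := msh_mul hN1
  have hMX : (M : ℝ) * msh (Kt.X p) N M ≤ Kt.X p / 2 := by
    have h2 : (2 : ℝ) * ((M + 4) * msh (Kt.X p) N M) ≤ N * ((M + 4) * msh (Kt.X p) N M) :=
      mul_le_mul_of_nonneg_right hN2 (by positivity)
    linarith
  obtain ⟨J₂, hJ₂⟩ := exists_nat_ge (2 * ((M : ℝ) + s₂) / Kt.X p)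
  refine ⟨1, one_pos, max J₁ J₂, ?_⟩
  intro J hJ F B hB D hD i hi j hj ω hω l hl1 hl b' hb0 hb'
  obtain ⟨-, -, -, -, -, c6, c7, c8, -, -⟩ := hJ₁ J ((le_max_left _ _).trans hJ)
  have hDo : D.Ok (Kt.cs p) (n₀ + 1) Kt.K K' s₁ sh (up ((Kt.y p).1 + (Kt.y p).2) J)
      (up (Kt.y p).1 J) (up (msh (Kt.X p) N M) J) M (fun i j => ⌊e i j * J⌋₊)
      (fun i j l => ⌊b i j l * J⌋₊) B := hD.1
  have hi' : i ≤ M := hi
  have hj' : j ≤ M := hj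
  have hl' : l ≤ n₀ + 1 := hl
  have hωB : B ω := Pool.PB.End.of_cond_pos hω
  -- the room
  have hJ0 : (0 : ℝ) ≤ J := Nat.cast_nonneg J
  have hz2 : (up (msh (Kt.X p) N M) J : ℝ) ≤ msh (Kt.X p) N M * J + 1 := up_le hζ0.le J
  have hroom : (M : ℝ) * up (msh (Kt.X p) N M) J + s₂ ≤ Kt.X p * J := by
    have h1 := mul_le_mul_of_nonneg_left hz2 hM0
    have h2 := mul_le_mul_of_nonneg_right hMX hJ0
    have h3 : 2 * ((M : ℝ) + s₂) ≤ J * Kt.X p := by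
      have := hJ₂.trans (show (J₂ : ℝ) ≤ J by exact_mod_cast (le_max_right _ _).trans hJ)
      rwa [div_le_iff₀ hX] at this
    have h4 : (M : ℝ) * (msh (Kt.X p) N M * J + 1) = M * msh (Kt.X p) N M * J + M := by ring
    have h5 : (0 : ℝ) ≤ s₂ := Nat.cast_nonneg _
    rw [h4] at h1
    linarith only [h1, h2, h3, h5, hM0]
  obtain ⟨gm, hgm⟩ : ∃ gm, gm = (range (n₀ + 1)).sup fun l => ⌊b i j l * (J : ℝ)⌋₊ := ⟨_, rfl⟩
  have hgm1 : ∀ l < n₀ + 1, ⌊b i j l * (J : ℝ)⌋₊ ≤ gm := fun l hl => by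
    rw [hgm]
    exact Finset.le_sup (f := fun l => ⌊b i j l * (J : ℝ)⌋₊) (mem_range.2 hl)
  have hsiz : ⌊e i j * (J : ℝ)⌋₊ + gm + M * up (msh (Kt.X p) N M) J + s₂ ≤ J := by
    obtain ⟨l₁, h1, h2⟩ := Finset.exists_mem_eq_sup (range (n₀ + 1)) ⟨0, mem_range.2 (by omega)⟩
      fun l => ⌊b i j l * (J : ℝ)⌋₊
    rw [← hgm] at h2
    have h3 := hnear.e1 i hi' j hj' l₁ (mem_range.1 h1)
    have h4 := hnear.e0 i hi' j hj'
    have h7 := hs.pos i hi' j hj' l₁ (mem_range.1 h1)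
    have h5 : (⌊e i j * (J : ℝ)⌋₊ : ℝ) ≤ e i j * J := Nat.floor_le (by positivity)
    have h6 : ((gm : ℕ) : ℝ) ≤ b i j l₁ * J := by
      rw [h2]
      exact Nat.floor_le (by positivity)
    have h9 := mul_le_mul_of_nonneg_right h3 hJ0
    have h8 : ((⌊e i j * (J : ℝ)⌋₊ + gm + M * up (msh (Kt.X p) N M) J + s₂ : ℕ) : ℝ) ≤ J := by
      push_cast
      linarith only [h5, h6, h9, hroom]
    exact_mod_cast h8
  have h1 := hs₂ hDo (hinj p) (by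
      have : M * up (msh (Kt.X p) N M) J ≤ (M + 1) * up (msh (Kt.X p) N M) J :=
        Nat.mul_le_mul_right _ (by omega)
      omega) (by
      have : M * up (msh (Kt.X p) N M) J ≤ (M + 1) * up (msh (Kt.X p) N M) J :=
        Nat.mul_le_mul_right _ (by omega)
      omega) i hi' j hj' (fun l hl => c8 i hi' j hj' l hl) gm
    (M * up (msh (Kt.X p) N M) J) hgm1 hsiz ω hωB b' hb0 l hl1 hl' hb'
  have e2 : ∀ ω, (Kt.nd p N M θ (Kt.grid K' s₁ sh p N M θ b e) F D).Φ i j ω l =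
      D.PL i j (D.zL i j (slam F (up (Kt.y p).1 J + j * up (msh (Kt.X p) N M) J) ω)) l := fun ω => by
    have h2 := CDat2.nd2_Φ (D.cd (n₀ + 1) (Kt.rc p N M θ J F D))
      (cx F fun i => Kt.cs p (i - 1)) (pc (Kt.cs p)) (up (Kt.y p).1 J) (up (msh (Kt.X p) N M) J) M
      (fun i j l => ⌊b i j (l - 1) * (J : ℝ)⌋₊ - sh l) hi' hj' hl' ω
    refine h2.trans ?_
    unfold CDat2.Ph2
    rw [if_neg (by omega)]
    rfl
  have e3 : (Kt.nd p N M θ (Kt.grid K' s₁ sh p N M θ b e) F D).g i j l =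
      ⌊b i j (l - 1) * (J : ℝ)⌋₊ - sh l :=
    CDat2.nd2_g (D.cd (n₀ + 1) (Kt.rc p N M θ J F D))
      (cx F fun i => Kt.cs p (i - 1)) (pc (Kt.cs p)) (up (Kt.y p).1 J) (up (msh (Kt.X p) N M) J) M
      (fun i j l => ⌊b i j (l - 1) * (J : ℝ)⌋₊ - sh l) hl1
  rw [e2, e3]
  exact h1

end Pool.STAT
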