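import Pool.Agent.H78.TT.KdA
import Pool.Agent.H56.ASM.ExS

/-!
# Ties at the top speed, windows

`thn_all`: all coordinates are thin if no coordinate is faster than the target and the slope of the
target is less than two.
-/

set_option autoImplicit false

namespace Pool.PKG

open MeasureTheory Set Filter Topology
open Pool.Agent.H49.Ent Pool.Agent.H32.Dense Pool.STK Pool.KA Pool.KSAT Pool.K2S Pool.PB
open Pool.GEN Pool.S6C Pool.STAT Pool.CHT Pool.GRW Pool.ONE Pool.STA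
open Pool.LBT (LSys ThrOf)
open Pool.LEV (Law Lv)
open Pool.ALL (RateOf)
open Pool.TOP (TopS)
open Pool.RTS (iso Diag)
open Pool.STR (NumI CellD RowD NfB AffB Rle Nw ThinAt SteepAt StaAt)
open Pool.CHB (chsysB)
open Pool.STAT.CLO Pool.MIC6
open Pool.P4 (NFc1)
open Pool.ASM (TopA)

variable {n : ℕ} {hn : 2 ≤ n} {S : PCl n} {P : ℝ → ℝ → ℝ} {rr : ℝ → ℝ}
  {P' : ℕ → List (Fin n) × Fin n → ℝ → ℝ → ℝ} {Λ : Finset (Fin n) → Fin n → ℝ → ℝ → ℝ}
  {PB : ℕ → List (Fin n) × Fin n → ℝ → ℝ → ℝ}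

/-- At the windows where no coordinate is faster than the target, and the slope of the target is
less than two, all coordinates are thin. -/
theorem thn_all (H : PkT hn S P rr P' Λ PB) (hTop : TopS n) (hF : FZX (n - 1)) :
    ∀ᵐ g : ℝ, ∀ o : Od n, g ∈ Gs P rr P' Λ o → SlLe hn P P' o g →
      slN hn P P' o (n - 1) g < 2 → ∀ l < n - 1, ThN hn P P' PB o l g := by
  filter_upwards [H.sta_all H.pble hTop hF, slo_two H hTop hF] with g h1 h2 o ho hle hlt
  have h3 : ∀ l < n - 1, ThS hn P P' PB o l g := fun l hl => by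
    refine h1 o ho l hl.le ?_
    rw [← slN_lvl o hl.le]
    linarith [hle l hl]
  intro l hl
  by_contra h4
  have h5 := (h2 o ho l hl (fun k hk => h3 k (hk.trans hl)) (h3 l hl) h4).2
  linarith [hle l hl]

end Pool.PKG

namespace Pool.ASM

open MeasureTheory Set Filter Topology
open Pool.Agent.H49.Ent Pool.Agent.H32.Dense Pool.STK Pool.KA Pool.KSAT Pool.K2S Pool.PB
open Pool.GEN Pool.S6C Pool.GRW Pool.PKG Pool.STAT Pool.PM Pool.R1 Pool.Z4
open Pool.ONE (LocE Ext0 Ext rowN_of_ext)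
open Pool.TOP (TopS rw_all)
open Pool.STR (NumI TopW Mac StaAt IsoAt StaU1 ThinAt SteepAt Rle)
open Pool.SW (TopC NtO OneS NoTie Rgh Xa TieO)

/-- No coordinate is faster than the target. -/
theorem slLe_top {n : ℕ} {hn : 2 ≤ n} {S : PCl n} {P : ℝ → ℝ → ℝ} {r : ℝ → ℝ}
    {P' : ℕ → List (Fin n) × Fin n → ℝ → ℝ → ℝ} {Λ : Finset (Fin n) → Fin n → ℝ → ℝ → ℝ}
    {PB : ℕ → List (Fin n) × Fin n → ℝ → ℝ → ℝ} {H : PkT hn S P r P' Λ PB} {hTop : TopS n}
    {hF : FZX (n - 1)} {o : Od n} {g : ℝ}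
    (h : TopA n (slo H hTop hF o g) (deriv (fun a => P a a) g)) : SlLe hn P P' o g := by
  intro l hl
  have h4 := h.2 ⟨l, hl⟩
  rwa [slo_slN, ← slN_tar (hn := hn) (P' := P') o g] at h4

end Pool.ASM
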