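import Pool.Agent.H78.TT.ExtT
import Pool.Agent.H56.NB.Thn

/-!
# No boxes with ties at the top speed, all coordinates are rough

`NftI`, `NslI`: full entropy modulo the directions, no slabs, on a family of boxes. `TlS T`: the tied
coordinates of the cells. `HypT`: exactness and these two. `kpA As`: the windows where all
coordinates are rough, `As` is a property of the slopes. `nok_TA`: no boxes of this kind, from a local
theorem. `SlA`: the slopes of (T); `nok_TF`: no boxes, by (T).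
-/

set_option autoImplicit false

namespace Pool.PKG

open MeasureTheory Set Filter Topology
open Pool.Agent.H49.Ent Pool.Agent.H32.Dense Pool.STK Pool.KA Pool.KSAT Pool.K2S Pool.PB
open Pool.GEN Pool.S6C Pool.STAT Pool.CHT Pool.GRW Pool.ONE Pool.STA
open Pool.LBT (LSys ThrOf)
open Pool.LEV (Law Lv)
open Pool.ALL (RateOf)
open Pool.TOP (TopS)
open Pool.RTS (iso Diag)
open Pool.STR (NumI CellD RowD NfB AffB Rle Nw ThinAt SteepAt StaAt)
open Pool.CHB (chsysB)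
open Pool.STAT.CLO Pool.MIC6
open Pool.P4 (NFc1)
open Pool.ASM (TopA)

variable {n : ℕ} {hn : 2 ≤ n} {S : PCl n} {P : ℝ → ℝ → ℝ} {rr : ℝ → ℝ}
  {P' : ℕ → List (Fin n) × Fin n → ℝ → ℝ → ℝ} {Λ : Finset (Fin n) → Fin n → ℝ → ℝ → ℝ}
  {PB : ℕ → List (Fin n) × Fin n → ℝ → ℝ → ℝ}
  (H : PkT hn S P rr P' Λ PB) {hTop : TopS n} {hF : FZX (n - 1)} {h : ℝ}
  {ρ' : ℝ → ℝ} {hρ : Rle rr ρ'}

/-- **Full entropy modulo the directions** in the coordinates `Tl`, on a family of boxes. -/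
def NftI (p : ((H.nk hTop hF).chg hρ H.up).Par) (Tl : ℕ → Prop) (I : ℝ → BS p.cell → Prop) :
    Prop :=
  ∀ (K K' s₁ : ℕ) (sh : ℕ → ℕ), 1 ≤ K → 1 ≤ K' →
    ∃ C₄ : ℝ, ∀ C₁ ≥ C₄, ∀ (M' K'' : ℕ) (κ : ℝ), 0 < κ → EvQ I fun N θ q =>
      (kitN H p K).kit.FldN S K' s₁ sh M' N θ q fun G J F D q' =>
        ((kitN H p K).kit.nd q N M' θ G F D).NFt Tl G.n J (up G.ϖ J) (up G.ζ J) G.M K'' C₁ κ q'

/-- **The natural velocities of the base are not in a slab**, on a family of boxes. -/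
def NslI (p : ((H.nk hTop hF).chg hρ H.up).Par) (I : ℝ → BS p.cell → Prop) : Prop :=
  ∀ (K K' s₁ : ℕ) (sh : ℕ → ℕ), 1 ≤ K → 1 ≤ K' →
    ∃ C₄ : ℝ, ∀ C₁ ≥ C₄, ∀ (M' K'' : ℕ) (κ : ℝ), 0 < κ → EvQ I fun N θ q =>
      (kitN H p K).kit.FldN S K' s₁ sh M' N θ q fun G J F D q' =>
        ((kitN H p K).kit.nd q N M' θ G F D).NoSl G.n J (up G.ϖ J) (up G.ζ J) G.M K'' C₁ κ q'

variable {H} in
theorem NftI.sub {p : ((H.nk hTop hF).chg hρ H.up).Par} {Tl : ℕ → Prop}
    {I I' : ℝ → BS p.cell → Prop} (h : NftI H p Tl I) (hs : ∀ ε q, I' ε q → I ε q) :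
    NftI H p Tl I' := by
  intro K K' s₁ sh hK hK'
  obtain ⟨C₄, h1⟩ := h K K' s₁ sh hK hK'
  exact ⟨C₄, fun C₁ hC₁ M' K'' κ hκ => (h1 C₁ hC₁ M' K'' κ hκ).sub hs⟩

variable {H} in
theorem NslI.sub {p : ((H.nk hTop hF).chg hρ H.up).Par} {I I' : ℝ → BS p.cell → Prop}
    (h : NslI H p I) (hs : ∀ ε q, I' ε q → I ε q) : NslI H p I' := by
  intro K K' s₁ sh hK hK'
  obtain ⟨C₄, h1⟩ := h K K' s₁ sh hK hK'
  exact ⟨C₄, fun C₁ hC₁ M' K'' κ hκ => (h1 C₁ hC₁ M' K'' κ hκ).sub hs⟩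

/-- The tied coordinates of the cells: the coordinate `l` of the order has the number `l + 1`. -/
def TlS (T : Finset (Fin n)) (u : ℕ) : Prop := 1 ≤ u ∧ InR T (u - 1)

/-- **The tied coordinates are those of** `T`, the first coordinate is not tied. -/
def TieS (hn : 2 ≤ n) (P : ℝ → ℝ → ℝ) (P' : ℕ → List (Fin n) × Fin n → ℝ → ℝ → ℝ)
    (T : Finset (Fin n)) (o : Od n) (g : ℝ) : Prop :=
  ¬ InR T 0 ∧ ∀ l < n - 1, InR T l → slN hn P P' o l g = slN hn P P' o (n - 1) g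

/-- **Exactness, full entropy modulo the directions, no slabs**, on the boxes of the kinds; the kinds
are the sets of the tied coordinates. -/
def HypT : HypK (hTop := hTop) (hF := hF) (hρ := hρ) H (Finset (Fin n)) :=
  fun T p I => ExnI H p I ∧ ExsI H p I ∧ NftI H p (TlS T) I ∧ NslI H p I

/-- **No boxes of a kind with ties, all the coordinates are rough**: `Qc` is a condition for the
slopes. -/
theorem cls_TA {Qc : CondN} (hQc : Qc.Cl (n - 1 + 1)) {Tl : ℕ → Prop}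
    (hP : ∀ K' : ℕ, MicX (XT Tl (fun _ => True) K' 1) Qc (fun B => B = n + 2) (n - 1 + 1) K' h)
    (hh : 0 < h) (hh1 : h ≤ 1) {p : ((H.nk hTop hF).chg hρ H.up).Par} (hpI : AdP H p)
    {ι : Type} {kd : p.cell.α → ι} {c β h' M : ℝ} {x : ι}
    (hexn : ExnI H p (IsK p.cell kd c β h' M x)) (hexs : ExsI H p (IsK p.cell kd c β h' M x))
    (hnft : NftI H p Tl (IsK p.cell kd c β h' M x)) (hnsl : NslI H p (IsK p.cell kd c β h' M x))
    (hc : 0 < c) (hβ : 0 < β)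
    (hQ : ∀ q ε K₀, IsK p.cell kd c β h' M x ε q → Qc (fun _ => 1)
      (gamS (n - 1 + 1) ((kitN H p K₀).kit.la q) ((kitN H p K₀).kit.ml q)))
    (hrow : ∀ ε' : ℝ, 0 < ε' → EvP (IsK p.cell kd c β h' M x) fun q =>
      NfB rr h (ε' * q.r) (P q.g q.g - q.r) (P q.g q.g + 3 * q.r))
    (hrgh : ∀ l < n - 1, ∀ ε' : ℝ, 0 < ε' → EvP (IsK p.cell kd c β h' M x) fun q =>
      Box7 q.g q.r fun a w => bet (PB (show Od n from q.k.2).2)
        (cc hn (show Od n from q.k.2).1.1) l a w ≤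
          dgN hn P P' (show Od n from q.k.2) l w + (a - w) + ε' * q.r) :
    EvP (IsK p.cell kd c β h' M x) fun _ => False := by
  have hI' := isK_mono p.cell kd c β h' M x
  have hsub := isK_sub p.cell kd c β h' M x
  refine cls_mic H hh hh1 hpI hexn hexs hc hβ hrow (X := fun K' => XT Tl (fun _ => True) K' 1)
    (fun K' => xT_mono Tl _ K' 1) hQc hP hQ fun K₀ K' s₁ sh hK₀ hK' W her hWs => ?_
  refine ext_T hI' ((kitN H p K₀).kit.setW W her) (fun q => kit_inj H p K₀ q.k)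
    (fun _ _ _ => rfl) (kit_cel H hpI (kd := kd) (h' := h') (M := M) hc hβ x K₀) hK' (x := 1)
    ?_ ?_ ?_
  · refine ext_P hI' H.tmh ((kitN H p K₀).kit.setW W her)
      (kit_cel H hpI (kd := kd) (h' := h') (M := M) hc hβ x K₀) hK'
      (be := fun q => bi P' (show Od n from q.k.2).2)
      (P := fun q => PB (show Od n from q.k.2).2) (fun q => H.thb _)
      (fun q l hl a w _ _ _ => (kit_Lb H q hl a w).le)
      (fun l hl ε' hε' => ?_) le_rfl ?_
    · rcases Nat.lt_or_ge l (n - 1) with hl' | hl'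
      · refine ((hrgh l hl' ε' hε').and hI' (EvP.self _ one_pos)).mono fun q hq z hz => ?_
        obtain ⟨h1, hq⟩ := hq
        have hr := hq.is.r0
        have h2 : ∀ a w : ℝ, 0 ≤ w → w ≤ a → a ≤ 1 →
            bet (PB (show Od n from q.k.2).2) (cc hn (show Od n from q.k.2).1.1) l a w ≤ 1 :=
          fun a w k1 k2 k3 => (H.thb _).up _ a w k1 k2 k3
        have h3 := box_le h2 hr hq.is.g0 hq.is.g1 h1 (mul_pos hε' hr).le hz
        have h4 : (kitN H p K₀).kit.L q l = iso (dgN hn P P' (show Od n from q.k.2) l) := by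
          show iso ((kitN H p K₀).Dg q l) = _
          rw [kit_dg H q l]
        show Nw (bet (PB (show Od n from q.k.2).2) (cc hn (show Od n from q.k.2).1.1) l) z ≤
          Nw ((kitN H p K₀).kit.L q l) z + ε' * q.r
        rw [h4]
        exact h3
      · obtain rfl : l = n - 1 := by omega
        exact (kit_thr H ε' hε').sub hsub
    · exact ⟨0, fun C₁ hC₁ B _ _ M' => ⟨0, fun N _ => ⟨1, one_pos, fun θ _ _ => EvP.of fun q =>
        (fld_nfc1 ((kitN H p K₀).kit.setW W her) hC₁ B M' N θ q).mono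
          fun _ _ _ _ _ _ h1 gam' _ _ => h1 gam'⟩⟩⟩
  · obtain ⟨C₄, h1⟩ := hnft K₀ K' s₁ sh hK₀ hK'
    exact ⟨C₄, fun C₁ hC₁ M' K'' κ hκ => (h1 C₁ hC₁ M' K'' κ hκ).mono fun N θ q h2 =>
      h2.setW (hWs q N M' θ) fun _ _ _ _ _ _ h3 => h3⟩
  · obtain ⟨C₄, h1⟩ := hnsl K₀ K' s₁ sh hK₀ hK'
    exact ⟨C₄, fun C₁ hC₁ M' K'' κ hκ => (h1 C₁ hC₁ M' K'' κ hκ).mono fun N θ q h2 =>
      h2.setW (hWs q N M' θ) fun _ _ _ _ _ _ h3 => h3⟩

/-- **The statements about the boxes** of the windows where all coordinates are rough. -/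
structure KnA (hn : 2 ≤ n) (P : ℝ → ℝ → ℝ) (rr : ℝ → ℝ)
    (P' PB : ℕ → List (Fin n) × Fin n → ℝ → ℝ → ℝ) (h : ℝ) (o : Od n) (g r d : ℝ) : Prop where
  row : NfB rr h d (P g g - r) (P g g + 3 * r)
  rgh : ∀ l < n - 1, Box7 g r fun a w =>
    bet (PB o.2) (cc hn o.1.1) l a w ≤ dgN hn P P' o l w + (a - w) + d

theorem KnA.mono {h : ℝ} {o : Od n} {g r d d' : ℝ} (hd : d ≤ d')
    (H : KnA hn P rr P' PB h o g r d) : KnA hn P rr P' PB h o g r d' :=
  ⟨nfB_mono H.row le_rfl hd le_rfl le_rfl,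
    fun l hl => (H.rgh l hl).mono fun _ _ h => h.trans (by linarith)⟩

/-- **The windows where all coordinates are rough.** `As` is a property of the slopes and of the tied
coordinates. -/
noncomputable def kpA (H : PkT hn S P rr P' Λ PB) (hTop : TopS n) (hF : FZX (n - 1))
    (hρ : Rle rr ρ') (h : ℝ) (As : ℝ → Finset (Fin n) → Od n → ℝ → Prop) :
    NumI.KndP ((H.nk hTop hF).chg hρ H.up) (Finset (Fin n)) where
  A c T o g := As c T o g
  Φ _ o g r d := KnA hn P rr P' PB h (show Od n from o) g r d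
  mono hd h := h.mono hd

variable {H}

/-- A window of this kind. -/
theorem kpA_at {As : ℝ → Finset (Fin n) → Od n → ℝ → Prop} {o : Od n} {g : ℝ}
    {T : Finset (Fin n)} (hA : ∃ c : ℝ, 0 < c ∧ ∀ c' : ℝ, 0 < c' → c' ≤ c → As c' T o g)
    (hrow : Sml fun r d => NfB rr h d (P g g - r) (P g g + 3 * r))
    (hrgh : ∀ l < n - 1, Sml fun r d => Box7 g r fun a w =>
      bet (PB o.2) (cc hn o.1.1) l a w ≤ dgN hn P P' o l w + (a - w) + d) :
    (kpA H hTop hF hρ h As).At T (show ((H.nk hTop hF).chg hρ H.up).O from o) g := by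
  obtain ⟨c, hc, hA⟩ := hA
  refine ⟨c, hc, hA, ?_⟩
  have k1 : Sml fun r d => ∀ l ∈ Finset.range (n - 1), Box7 g r fun a w =>
      bet (PB o.2) (cc hn o.1.1) l a w ≤ dgN hn P P' o l w + (a - w) + d :=
    Sml.all _ fun l hl => hrgh l (Finset.mem_range.1 hl)
  exact (hrow.and k1).mono fun r d _ h => ⟨h.1, fun l hl => h.2 l (Finset.mem_range.2 hl)⟩

/-- **No boxes with ties, all coordinates are rough**, from a local theorem. -/
theorem nok_TA {As : ℝ → Finset (Fin n) → Od n → ℝ → Prop}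
    {Qc : ℝ → ℝ → Finset (Fin n) → CondN} (hQc : ∀ c β T, (Qc c β T).Cl (n - 1 + 1))
    (hP : ∀ (K' : ℕ) (c β : ℝ) (T : Finset (Fin n)), 0 < c → 0 < β →
      MicX (XT (TlS T) (fun _ => True) K' 1) (Qc c β T) (fun B => B = n + 2) (n - 1 + 1) K' h)
    (hQ : ∀ (c β : ℝ) (T : Finset (Fin n)) (o : Od n) (g : ℝ) (gam : ℕ → ℝ), 0 < c → 0 < β →
      As c T o g → β ≤ slN hn P P' o (n - 1) g - 1 →
      (∀ l, 1 ≤ l → l ≤ n - 1 + 1 → gam l = max 0 (slN hn P P' o (l - 1) g - 1)) →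
      Qc c β T (fun _ => 1) gam)
    (hh : 0 < h) (hh1 : h ≤ 1) :
    NoKd H (kpA H hTop hF hρ h As) (HypT H) := by
  intro p hp κ kd y T c β h₁ M hc hβ hK hy
  refine cls_TA H (hQc c β T) (fun K' => hP K' c β T hc hβ) hh hh1 hp hy.1 hy.2.1 hy.2.2.1
    hy.2.2.2 hc hβ
    (fun q ε K₀ hq => ?_) (fun ε' hε' => (hK.Φ ε' hε').mono fun q h1 => h1.row)
    fun l hl ε' hε' => (hK.Φ ε' hε').mono fun q h1 => h1.rgh l hl
  obtain ⟨-, e2⟩ := gamS_tar H hq hβ K₀
  exact hQ c β T _ q.g _ hc hβ (hK.A ε q hq) e2 fun l l1 l2 => gamS_kit H hq K₀ l1 l2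

/-- **The slopes of (T)**: the first coordinate has slope one, some coordinate is tied, no coordinate
is faster than the target, the coordinates which are not tied are at a distance. -/
def SlA (hn : 2 ≤ n) (P : ℝ → ℝ → ℝ) (P' : ℕ → List (Fin n) × Fin n → ℝ → ℝ → ℝ) (c : ℝ)
    (T : Finset (Fin n)) (o : Od n) (g : ℝ) : Prop :=
  TieS hn P P' T o g ∧
    (∀ l < n - 1, ¬ InR T l → c ≤ |slN hn P P' o l g - slN hn P P' o (n - 1) g|) ∧
      SlLe hn P P' o g ∧ slN hn P P' o 0 g = 1 ∧ ∃ l < n - 1, InR T l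

/-- The slopes of a window. -/
theorem slA_at {o : Od n} {g : ℝ} (h0 : slN hn P P' o 0 g = 1)
    (h1 : 1 < slN hn P P' o (n - 1) g) (hle : SlLe hn P P' o g)
    (htie : ∃ l < n - 1, slN hn P P' o l g = slN hn P P' o (n - 1) g) :
    ∃ T : Finset (Fin n), ∃ c : ℝ, 0 < c ∧ ∀ c' : ℝ, 0 < c' → c' ≤ c → SlA hn P P' c' T o g := by
  classical
  obtain ⟨T, hT⟩ : ∃ T : Finset (Fin n), T = Finset.univ.filter fun i : Fin n =>
      slN hn P P' o i g = slN hn P P' o (n - 1) g := ⟨_, rfl⟩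
  have hT' : ∀ l < n - 1, InR T l ↔ slN hn P P' o l g = slN hn P P' o (n - 1) g := by
    intro l hl
    constructor
    · rintro ⟨i, hi, rfl⟩
      rw [hT] at hi
      exact (Finset.mem_filter.1 hi).2
    · intro h
      exact ⟨⟨l, by omega⟩, by rw [hT]; exact Finset.mem_filter.2 ⟨Finset.mem_univ _, h⟩, rfl⟩
  obtain ⟨c, hc, hc1⟩ := pos_fin ((Finset.range (n - 1)).filter fun l => ¬ InR T l)
    (f := fun l => |slN hn P P' o l g - slN hn P P' o (n - 1) g|) fun l hl => by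
      rw [Finset.mem_filter, Finset.mem_range] at hl
      refine abs_pos.2 fun h => hl.2 ((hT' l hl.1).2 (by linarith))
  obtain ⟨l₁, hl₁, hl₂⟩ := htie
  refine ⟨T, c, hc, fun c' _ hcc =>
    ⟨⟨fun h => ?_, fun l hl => (hT' l hl).1⟩, fun l hl h => ?_, hle, h0, l₁, hl₁,
      (hT' l₁ hl₁).2 hl₂⟩⟩
  · have h2 := (hT' 0 (by omega)).1 h
    rw [h0] at h2
    linarith
  · exact hcc.trans (hc1 l (by
      rw [Finset.mem_filter, Finset.mem_range]
      exact ⟨hl, h⟩))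

/-- The slopes of (T) for the cells. -/
theorem slA_qT (hn4 : n ≤ 4) {c β : ℝ} {T : Finset (Fin n)} {o : Od n} {g : ℝ} {gam : ℕ → ℝ}
    (hβ : 0 < β) (hA : SlA hn P P' c T o g) (e2 : β ≤ slN hn P P' o (n - 1) g - 1)
    (hgam : ∀ l, 1 ≤ l → l ≤ n - 1 + 1 → gam l = max 0 (slN hn P P' o (l - 1) g - 1)) :
    QTs TopF (TlS T) (min c β) (n - 1 + 1) (fun _ => 1) gam := by
  obtain ⟨⟨-, h1⟩, h2, h3, h4, l₁, hl₁, hl₂⟩ := hA
  have e1 := hgam (n - 1 + 1) (by omega) le_rfl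
  rw [Nat.add_sub_cancel, max_eq_right (by linarith)] at e1
  have ht : ∀ l, 1 ≤ l → l < n - 1 + 1 → TlS T l → gam l = gam (n - 1 + 1) := fun l l1 l2 k => by
    rw [e1, hgam l l1 l2.le, h1 (l - 1) (by omega) k.2, max_eq_right (by linarith)]
  refine ⟨fun _ _ _ => rfl, fun l l1 l2 => ⟨ht l l1 l2, fun k => ?_⟩, fun l l1 l2 => ?_,
    by omega, ?_, l₁ + 1, by omega, by omega, ht _ (by omega) (by omega) ⟨by omega, ?_⟩⟩
  · rw [e1, hgam l l1 l2.le]
    have h5 := h2 (l - 1) (by omega) fun h => k ⟨l1, h⟩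
    rcases le_total (slN hn P P' o (l - 1) g) 1 with h6 | h6
    · rw [max_eq_left (by linarith), zero_sub, abs_neg, abs_of_nonneg (by linarith)]
      exact (min_le_right _ _).trans e2
    · rw [max_eq_right (by linarith), sub_sub_sub_cancel_right]
      exact (min_le_left _ _).trans h5
  · rw [e1, hgam l l1 l2.le]
    have h5 := h3 (l - 1) (by omega)
    exact max_le (by linarith) (by linarith)
  · rw [hgam 1 le_rfl (by omega), Nat.sub_self, h4, sub_self, max_self]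
  · rwa [Nat.add_sub_cancel]

/-- **No boxes with ties, all coordinates are rough**, by (T). -/
theorem nok_TF (hT : MicTStmt TopF) (hn4 : n ≤ 4) (hh : 0 < h) (hh1 : h ≤ 1) :
    NoKd H (kpA H hTop hF hρ h (SlA hn P P')) (HypT H) := by
  refine nok_TA (Qc := fun c β T => QTs TopF (TlS T) (min c β) (n - 1 + 1))
    (fun c β T => qTs_cl (by omega) (topF_cl (by omega)) _ _) (fun K' c β T hc hβ => ?_)
    (fun c β T o g gam hc hβ hA e2 hgam => slA_qT hn4 hβ hA e2 hgam) hh hh1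
  exact (micX_T hT (by omega) hh hh1 (lt_min hc hβ) K' 1 (TlS T) fun _ => True).mono
    (fun _ _ h => h) (fun _ _ h => h) fun _ _ => trivial

end Pool.PKG
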