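import Pool.Agent.H89.TT.NoS

/-!
# Ties at the top speed: the local statement (T)

`MicTStmt Q`: (T), nonfull rows, slopes in `Q`: a new label of the target or of a rough coordinate.
`TopQ`: no coordinate is faster than the target; `TopN`: moreover the slope of the target is `≤ 3/2`;
`TopF`: moreover at most four coordinates, the first one has slope one, one is tied; `AllQ`: all
slopes. `micX_T`: the form which is used for the classes.
-/

set_option autoImplicit false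

namespace Pool.STAT

open Finset MvPolynomial
open Pool.Agent.H49.Ent Pool.Agent.H32.Dense Pool.STK Pool.KS3
open Pool.BFL (Pb)
open Pool.P4 (GnL NBT NewLabT rt)

/-- **Slopes of (T)**: no coordinate is faster than the target. -/
def TopQ (n : ℕ) (gam : ℕ → ℝ) : Prop := ∀ l, 1 ≤ l → l < n → gam l ≤ gam n

/-- **Slopes of (T)**: no coordinate is faster than the target, and the slope of the target is at
most `3 / 2` (that is, `1 + gam n ≤ 5 / 2`). -/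
def TopN (n : ℕ) (gam : ℕ → ℝ) : Prop := TopQ n gam ∧ gam n ≤ 3 / 2

/-- **Slopes of (T)**: no coordinate is faster than the target, at most four coordinates, the first
one has slope one, and there is a tied one. -/
def TopF (n : ℕ) (gam : ℕ → ℝ) : Prop :=
  TopQ n gam ∧ n ≤ 4 ∧ gam 1 = 0 ∧ ∃ l₀, 1 ≤ l₀ ∧ l₀ < n ∧ gam l₀ = gam n

/-- **All slopes.** -/
def AllQ (_ : ℕ) (_ : ℕ → ℝ) : Prop := True

/-- **(T)**: cells with slopes in `Q` (the slopes are `1 + gam`), straight lines, nonfull rows, and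
such that the entropy modulo the directions is full and the natural velocities of the base are not in
a slab, have a new thin label of the target or of a rough coordinate. Ties, coordinates with labels
with gain (outside `R`), coordinates of slope one are allowed; every deficit `h > 0`.
`MicTStmt TopQ`: no coordinate is faster than the target. -/
def MicTStmt (Q : ℕ → (ℕ → ℝ) → Prop) : Prop :=
  ∀ (n K A B : ℕ) (Tl R : ℕ → Prop) (gam : ℕ → ℝ) (C₁ h : ℝ), 1 ≤ n → 1 ≤ B →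
    (∀ l, 0 ≤ gam l) → 0 < gam n → (∀ l, 1 ≤ l → l < n → (Tl l ↔ gam l = gam n)) →
    Q n gam → 1 ≤ C₁ → 0 < h → h ≤ 1 →
    ∃ (M Qg K' : ℕ) (η' κ ϖ : ℝ) (z₀ : ℕ), 0 < η' ∧ 0 < κ ∧ 0 < ϖ ∧
    ∀ (lam : ℕ → ℝ) (J a₀ w₀ z : ℕ) (D : NDat2) (q : D.Ω → ℝ) (U : GnL D),
      (∀ l, 1 ≤ l → l ≤ n → lam l = 1) → z₀ ≤ z →
      D.Ok2 n K J a₀ w₀ z M lam gam κ C₁ q → D.NF n z M B gam h C₁ ϖ q →
      D.TmU J w₀ z κ q → D.Strt → D.Slp n J z M q → D.NFt Tl n J w₀ z M K' C₁ κ q →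
      D.NoSl n J w₀ z M K' C₁ κ q → U.Ok n K J a₀ w₀ z M Qg R C₁ q →
      ∃ l, 1 ≤ l ∧ l ≤ n ∧ (l = n ∨ R l) ∧ ∃ i ≤ M, ∃ j ≤ M,
        NewLabT D U J a₀ w₀ z Qg R i j l A K' η' q

/-- **The joint property of the cells of (T).** -/
def XT (Tl R : ℕ → Prop) (K A : ℕ) : ExtX := fun _ _ _ n J a₀ w₀ z M Qg K' η' κ C₁ D q =>
  D.TmU J w₀ z κ q ∧ D.Strt ∧ D.Slp n J z M q ∧ D.NFt Tl n J w₀ z M K' C₁ κ q ∧
    D.NoSl n J w₀ z M K' C₁ κ q ∧ ∃ U : GnL D, U.Ok n K J a₀ w₀ z M Qg R C₁ q ∧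
      ∀ l, 1 ≤ l → l ≤ n → (l = n ∨ R l) → ∀ i ≤ M, ∀ j ≤ M,
        ¬ NewLabT D U J a₀ w₀ z Qg R i j l A K' η' q

theorem xT_mono (Tl R : ℕ → Prop) (K A : ℕ) : (XT Tl R K A).Mono := by
  refine ⟨?_⟩
  rintro B lam gam n J a₀ w₀ z M Q Q' K' K'' η η' κ κ' C₁ C₁' D q hq h1 h2 h3 h4 h5
    ⟨k1, k2, k6, k3, k7, U, k4, k5⟩
  exact ⟨k1.mono h4, k2, k6, k3.mono h2 h5 h4, k7.mono h2 h5 h4, U, gnL_mono k4 h1 h5, fun l l1 l2 l3 i hi j hj h6 =>
    k5 l l1 l2 l3 i hi j hj (newLabT_mono hq.nonneg h1 h2 h3 h6)⟩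

/-- The slopes of the cells of (T): the tied coordinates are those of `Tl`, the others are at the
distance `c`. -/
def QTs (Q : ℕ → (ℕ → ℝ) → Prop) (Tl : ℕ → Prop) (c : ℝ) (n : ℕ) : CondN := fun lam gam =>
  (∀ l, 1 ≤ l → l ≤ n → lam l = 1) ∧
    ((∀ l, 1 ≤ l → l < n → (Tl l → gam l = gam n) ∧ (¬ Tl l → c ≤ |gam l - gam n|)) ∧ Q n gam)

theorem qTie_cl {n : ℕ} (hn : 1 ≤ n) (Tl : ℕ → Prop) (c : ℝ) : CondN.Cl (fun _ gam =>
    ∀ l, 1 ≤ l → l < n → (Tl l → gam l = gam n) ∧ (¬ Tl l → c ≤ |gam l - gam n|)) n := by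
  refine CondN.Cl.all fun l => CondN.Cl.imp fun h1 => CondN.Cl.imp fun h2 =>
    CondN.Cl.and (CondN.Cl.imp fun _ => ⟨?_, fun {_ gam _ gam'} _ k2 h3 => ?_⟩)
      (CondN.Cl.imp fun _ => ⟨?_, fun {_ gam _ gam'} _ k2 h3 => ?_⟩)
  · exact isClosed_eq ((continuous_apply l).comp continuous_snd)
      ((continuous_apply n).comp continuous_snd)
  · rw [k2 l h1 h2.le, k2 n hn le_rfl]
    exact h3
  · exact isClosed_le continuous_const ((((continuous_apply l).comp continuous_snd).sub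
      ((continuous_apply n).comp continuous_snd)).abs)
  · rw [k2 l h1 h2.le, k2 n hn le_rfl]
    exact h3

theorem topQ_cl {n : ℕ} (hn : 1 ≤ n) : CondN.Cl (fun _ gam => TopQ n gam) n := by
  refine CondN.Cl.all fun l => CondN.Cl.imp fun h1 => CondN.Cl.imp fun h2 =>
      ⟨?_, fun {lam gam lam' gam'} _ k2 h3 => ?_⟩
  · exact isClosed_le ((continuous_apply l).comp continuous_snd)
      ((continuous_apply n).comp continuous_snd)
  · rw [k2 l h1 h2.le, k2 n hn le_rfl]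
    exact h3

/-- The condition for the slopes is closed, if that of `Q` is closed. -/
theorem qTs_cl {Q : ℕ → (ℕ → ℝ) → Prop} {n : ℕ} (hn : 1 ≤ n)
    (hQ : CondN.Cl (fun _ gam => Q n gam) n) (Tl : ℕ → Prop) (c : ℝ) : (QTs Q Tl c n).Cl n :=
  (CondN.Cl.all fun l => CondN.Cl.imp fun h1 => CondN.Cl.imp fun h2 =>
    CondN.Cl.lam_eq h1 h2 1).and ((qTie_cl hn Tl c).and hQ)

theorem allQ_cl {n : ℕ} : CondN.Cl (fun _ gam => AllQ n gam) n :=
  ⟨isClosed_univ, fun {_ _ _ _} _ _ _ => trivial⟩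

theorem topN_cl {n : ℕ} (hn : 1 ≤ n) : CondN.Cl (fun _ gam => TopN n gam) n := by
  refine (topQ_cl hn).and ⟨?_, fun {lam gam lam' gam'} _ k2 h3 => ?_⟩
  · exact isClosed_le ((continuous_apply n).comp continuous_snd) continuous_const
  · rw [k2 n hn le_rfl]
    exact h3

theorem topF_cl {n : ℕ} (hn : 1 ≤ n) : CondN.Cl (fun _ gam => TopF n gam) n := by
  refine (topQ_cl hn).and ⟨?_, fun {lam gam lam' gam'} _ k2 h3 => ?_⟩
  · refine IsClosed.and isClosed_const (IsClosed.and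
      (isClosed_eq ((continuous_apply 1).comp continuous_snd) continuous_const) ?_)
    have h1 : {x : (ℕ → ℝ) × (ℕ → ℝ) | ∃ l₀, 1 ≤ l₀ ∧ l₀ < n ∧ x.2 l₀ = x.2 n} =
        ⋃ l₀ ∈ (Finset.Ico 1 n), {x : (ℕ → ℝ) × (ℕ → ℝ) | x.2 l₀ = x.2 n} := by
      ext x
      simp only [Set.mem_ofPred_eq, Set.mem_iUnion, Finset.mem_Ico, exists_prop, and_assoc]
    show IsClosed {x : (ℕ → ℝ) × (ℕ → ℝ) | ∃ l₀, 1 ≤ l₀ ∧ l₀ < n ∧ x.2 l₀ = x.2 n}
    rw [h1]
    exact isClosed_biUnion_finset fun l₀ _ =>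
      isClosed_eq ((continuous_apply l₀).comp continuous_snd)
        ((continuous_apply n).comp continuous_snd)
  · obtain ⟨h4, h5, l₀, h6, h7, h8⟩ := h3
    exact ⟨h4, by rw [k2 1 le_rfl hn]; exact h5, l₀, h6, h7, by
      rw [k2 l₀ h6 h7.le, k2 n hn le_rfl]
      exact h8⟩

theorem MicTStmt.mono {Q Q' : ℕ → (ℕ → ℝ) → Prop} (h : MicTStmt Q')
    (hQ : ∀ n gam, 0 < gam n → Q n gam → Q' n gam) : MicTStmt Q :=
  fun n K A B Tl R gam C₁ x hn hB hgam hgn hTl hq hC hh hh1 =>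
    h n K A B Tl R gam C₁ x hn hB hgam hgn hTl (hQ n gam hgn hq) hC hh hh1

/-- **The local theorem (T)**, for the classes. -/
theorem micX_T {Q : ℕ → (ℕ → ℝ) → Prop} (hT : MicTStmt Q) {n : ℕ} (hn : 1 ≤ n) {h c : ℝ}
    (hh₀ : 0 < h) (hh1 : h ≤ 1) (hc : 0 < c) (K A : ℕ) (Tl R : ℕ → Prop) :
    MicX (XT Tl R K A) (QTs Q Tl c n) (fun _ => True) n K h := by
  intro B lam gam C₁ hB _ hlam hgam hgn hC₁ hQ
  obtain ⟨q1, q2, q4⟩ := hQ
  obtain ⟨M, Qg, K', η', κ, ϖ, z₀, a1, a2, a3, H⟩ := hT n K A B Tl R gam C₁ h hn hB hgam hgn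
    (fun l h1 h2 => ⟨(q2 l h1 h2).1, fun h3 => by
      by_contra h4
      have h5 := (q2 l h1 h2).2 h4
      rw [h3, sub_self, abs_zero] at h5
      linarith⟩) q4 hC₁ hh₀ hh1
  refine ⟨M, Qg, K', η', κ, ϖ, z₀, a1, a2, a3, fun J a₀ w₀ z D q hz hO hN hX => ?_⟩
  obtain ⟨x1, x2, x6, x3, x7, U, x4, x5⟩ := hX
  obtain ⟨l, l1, l2, l3, i, hi, j, hj, h6⟩ := H lam J a₀ w₀ z D q U q1 hz hO hN x1 x2 x6 x3 x7 x4
  exact x5 l l1 l2 l3 i hi j hj h6

end Pool.STAT
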