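import Pool.Agent.H78.MIC.MicI

/-!
# Ties at the top speed: the local statement

The cells are those of `Pool.STAT.MicOf` with `lam = 1`; the lines are straight (`Strt`). `Tl`: the
coordinates of the base with the slope of the target (tied coordinates). `R`: the rough coordinates;
the others are tied (or faster) and have labels with gain (`GnL`).

`NDat2.yc`: the natural heights over a closed system `Q` (a function of the closed context at `(i, j)`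
and of the window `v` of length `2 ^ (-(w₀ + v z))`, `j < v`). `NDat2.Cht`: the system is a chart on the
event `E`: heights of size `2 ^ (t z)`, lines which are affine in the chart up to `U z` digits on this
window. `NDat2.NFt`: in every chart the heights modulo a direction (pivot `k`, a tied coordinate) have
full entropy, to `U z` digits in natural units, up to `C₁ (t + v - j) z`. `NDat2.Slp`: the labels do not
see the digits of the positions after `J`.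

The statement of (T) is in `H78/TT/Stn.lean`.
-/

set_option autoImplicit false

namespace Pool.STAT

open Finset MvPolynomial
open Pool.Agent.H49.Ent Pool.Agent.H32.Dense Pool.STK Pool.KS3
open Pool.BFL (Pb)
open Pool.P4 (GnL NBT NewLabT rt)

namespace NDat2

/-- **The lines are straight.** -/
def Strt (D : NDat2) : Prop := ∀ x l, (D.pa x l).natDegree ≤ 1

/-- The data of a direction at `(i, j)`: the closed context, and the window `w`. -/
def cT (D : NDat2) (J w i j : ℕ) (ω : D.Ω) : D.Γ × ℕ := (D.c i j ω, D.T ω / 2 ^ (J - w))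

/-- **The natural heights** over the system `Q` at `(i, j)`, a function of the closed context and of
the window `v`. -/
noncomputable def yc (D : NDat2) (J w₀ z i j v : ℕ) (Q : D.Γ × ℕ → ℕ → PN) (ω : D.Ω) (l : ℕ) : ℝ :=
  2 ^ D.g i j l * (D.X ω l - eval (D.X ω) (Q (D.cT J (w₀ + v * z) i j ω) l))

/-- **Charts** on the event `E`: the system `Q`, heights of size `2 ^ (t z)` in natural units, which are
the affine functions `A + rt * B` of the relative time of the window `v`, up to `U z` digits. The digits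
of the positions after `J` are not seen. -/
structure Cht (D : NDat2) (n K' J w₀ z i j v t U : ℕ) (q : D.Ω → ℝ) (E : D.Ω → Prop)
    (Q : D.Γ × ℕ → ℕ → PN) (A B : D.Λ × ℕ → ℕ → ℝ) : Prop where
  deg : ∀ c l, (Q c l).totalDegree ≤ K'
  var : ∀ c l, (Q c l).vars ⊆ range l
  nat : ∀ ω, 0 < q ω → E ω → ∀ l, 1 ≤ l → l ≤ n → |D.yc J w₀ z i j v Q ω l| ≤ 2 ^ (t * z)
  bdA : ∀ ω, 0 < q ω → E ω → ∀ l, 1 ≤ l → l ≤ n → |A (D.wn J (w₀ + v * z) ω) l| ≤ 2 ^ (t * z)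
  bdB : ∀ ω, 0 < q ω → E ω → ∀ l, 1 ≤ l → l ≤ n → |B (D.wn J (w₀ + v * z) ω) l| ≤ 2 ^ (t * z)
  lin : ∀ ω, 0 < q ω → E ω → ∀ l, 1 ≤ l → l ≤ n →
    |D.yc J w₀ z i j v Q ω l - (A (D.wn J (w₀ + v * z) ω) l +
      rt D J (w₀ + v * z) ω * B (D.wn J (w₀ + v * z) ω) l)| ≤ 2 ^ (t * z) / 2 ^ (U * z)
  slp : ∀ ω, 0 < q ω → E ω → ∀ l, 1 ≤ l → l ≤ n → ∀ b : ℕ → ℝ, b 0 = D.X ω 0 →
    (∀ m, 1 ≤ m → m < l → |b m - D.X ω m| ≤ 1 / 2 ^ J) →
    |eval b (Q (D.cT J (w₀ + v * z) i j ω) l) -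
      eval (D.X ω) (Q (D.cT J (w₀ + v * z) i j ω) l)| ≤ 2 ^ (t * z) / 2 ^ (D.g i j l + U * z)

theorem Cht.mono {D : NDat2} {n K' K'' J w₀ z i j v t U : ℕ} {q : D.Ω → ℝ} {E : D.Ω → Prop}
    {Q : D.Γ × ℕ → ℕ → PN} {A B : D.Λ × ℕ → ℕ → ℝ} (h : D.Cht n K'' J w₀ z i j v t U q E Q A B)
    (hK : K'' ≤ K') : D.Cht n K' J w₀ z i j v t U q E Q A B :=
  ⟨fun c l => (h.deg c l).trans hK, h.var, h.nat, h.bdA, h.bdB, h.lin, h.slp⟩

theorem Cht.sub {D : NDat2} {n K' J w₀ z i j v t U : ℕ} {q : D.Ω → ℝ} {E E' : D.Ω → Prop}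
    {Q : D.Γ × ℕ → ℕ → PN} {A B : D.Λ × ℕ → ℕ → ℝ} (h : D.Cht n K' J w₀ z i j v t U q E Q A B)
    (hE : ∀ ω, E' ω → E ω) : D.Cht n K' J w₀ z i j v t U q E' Q A B :=
  ⟨h.deg, h.var, fun ω h1 h2 => h.nat ω h1 (hE ω h2), fun ω h1 h2 => h.bdA ω h1 (hE ω h2),
    fun ω h1 h2 => h.bdB ω h1 (hE ω h2), fun ω h1 h2 => h.lin ω h1 (hE ω h2),
    fun ω h1 h2 => h.slp ω h1 (hE ω h2)⟩

/-- **The base modulo the direction** `ka`, without the pivot `k`, to `r` digits in natural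
units. -/
noncomputable def ya (D : NDat2) (n k : ℕ) (J w₀ z i j v : ℕ) (Q : D.Γ × ℕ → ℕ → PN)
    (ka : D.Γ × ℕ → ℕ → ℝ) (r : ℕ) (ω : D.Ω) (l : Fin n) : ℤ :=
  if 1 ≤ (l : ℕ) ∧ (l : ℕ) ≠ k then
    ⌊(2 : ℝ) ^ r * (D.yc J w₀ z i j v Q ω l -
      ka (D.cT J (w₀ + v * z) i j ω) l * D.yc J w₀ z i j v Q ω k)⌋ else 0

/-- **The target modulo the direction** `ka`, to `r` digits in natural units; it is divided by the
size of the direction. -/
noncomputable def yn (D : NDat2) (n k : ℕ) (J w₀ z i j v : ℕ) (Q : D.Γ × ℕ → ℕ → PN)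
    (ka : D.Γ × ℕ → ℕ → ℝ) (r : ℕ) (ω : D.Ω) : ℤ :=
  ⌊(2 : ℝ) ^ r * (D.yc J w₀ z i j v Q ω n -
    ka (D.cT J (w₀ + v * z) i j ω) n * D.yc J w₀ z i j v Q ω k) /
      max 1 |ka (D.cT J (w₀ + v * z) i j ω) n|⌋

/-- **Full entropy modulo a direction**, in all charts of degree `≤ K'`, on all events of probability
`≥ ϖ`. The pivot `k` is tied; the direction `ka` is a function of the closed context at `(i, j)` and of
the window `v`, it vanishes on the base coordinates which are not tied, is at most `1` on the base, and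
arbitrary on the target. -/
def NFt (D : NDat2) (Tl : ℕ → Prop) (n J w₀ z M K' : ℕ) (C₁ ϖ : ℝ) (q : D.Ω → ℝ) : Prop :=
  ∀ i j v t U : ℕ, i + 2 * U ≤ M → j + 2 * U ≤ M → j < v → v ≤ M → 1 ≤ t →
    ∀ k, 1 ≤ k → k < n → Tl k →
    ∀ (Q : D.Γ × ℕ → ℕ → PN) (A B : D.Λ × ℕ → ℕ → ℝ) (ka : D.Γ × ℕ → ℕ → ℝ),
    (∀ c, ka c k = 1) → (∀ c l, l < n → ¬ Tl l → ka c l = 0) → (∀ c l, l < n → |ka c l| ≤ 1) →
    ∀ E : D.Ω → Prop, ϖ ≤ Pb q E → D.Cht n K' J w₀ z i j v t U q E Q A B →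
    ((n - 1 : ℕ) * (U * z)) * Real.log 2 - C₁ * ((t + (v - j) : ℕ) * z) ≤
      CH (Pool.Agent.H49.Ent.cond q E True)
        (fun ω => (D.ya n k J w₀ z i j v Q ka (U * z) ω, D.yn n k J w₀ z i j v Q ka (U * z) ω))
        (fun ω => (D.c i j ω, D.T ω))

theorem NFt.mono {D : NDat2} {Tl : ℕ → Prop} {n J w₀ z M K' K'' : ℕ} {C₁ C₁' ϖ ϖ' : ℝ}
    {q : D.Ω → ℝ} (h : D.NFt Tl n J w₀ z M K' C₁ ϖ q) (hK : K'' ≤ K') (hC : C₁ ≤ C₁')
    (hϖ : ϖ ≤ ϖ') : D.NFt Tl n J w₀ z M K'' C₁' ϖ' q := by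
  intro i j v t U h1 h2 h3 h4 h5 k k1 k2 k3 Q A B ka e1 e2 e3 E hE hch
  have h6 := h i j v t U h1 h2 h3 h4 h5 k k1 k2 k3 Q A B ka e1 e2 e3 E (hϖ.trans hE)
    (hch.mono hK)
  have h7 : C₁ * (((t + (v - j) : ℕ) : ℝ) * (z : ℝ)) ≤ C₁' * ((t + (v - j) : ℕ) * z) :=
    mul_le_mul_of_nonneg_right hC (by positivity)
  linarith

/-- **The labels do not see the digits of the positions after `J`.** -/
def Slp (D : NDat2) (n J z M : ℕ) (q : D.Ω → ℝ) : Prop :=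
  ∀ i ≤ M, ∀ j ≤ M, ∀ ω, 0 < q ω → ∀ l, 1 ≤ l → l ≤ n → ∀ b : ℕ → ℝ, b 0 = D.X ω 0 →
    (∀ m, 1 ≤ m → m < l → |b m - D.X ω m| ≤ 1 / 2 ^ J) →
    |eval b (D.Φ i j ω l) - eval (D.X ω) (D.Φ i j ω l)| ≤ 1 / 2 ^ (D.g i j l + M * z)

end NDat2

end Pool.STAT
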