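import Pool.Agent.H78.TT.KpC
import Pool.Agent.H89.STG.Def

/-!
# The windows where a coordinate has chains with gain at a small radius

`DgC2`: the class of the chains with gain of `GnW2`. `kpV`: the windows where the coordinate `l₁` has
such chains and the coordinates before have no better labels on the diagonal, with the conditions for
the slopes.
-/

set_option autoImplicit false

namespace Pool.PKG

open MeasureTheory Set Filter Topology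
open Pool.Agent.H49.Ent Pool.Agent.H32.Dense Pool.STK Pool.KA Pool.KSAT Pool.K2S Pool.PB
open Pool.GEN Pool.S6C Pool.STAT Pool.CHT Pool.GRW Pool.ONE Pool.STA
open Pool.LBT (LSys ThrOf)
open Pool.LEV (Law Lv)
open Pool.ALL (RateOf)
open Pool.TOP (TopS)
open Pool.RTS (iso Diag)
open Pool.STR (NumI CellD RowD NfB AffB Rle Nw ThinAt SteepAt StaAt)
open Pool.CHB (chsysB)
open Pool.STAT.CLO Pool.MIC6

variable {n : ℕ} {hn : 2 ≤ n} {S S' : PCl n} {P : ℝ → ℝ → ℝ} {rr : ℝ → ℝ}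
  {P' : ℕ → List (Fin n) × Fin n → ℝ → ℝ → ℝ} {Λ : Finset (Fin n) → Fin n → ℝ → ℝ → ℝ}
  {PB : ℕ → List (Fin n) × Fin n → ℝ → ℝ → ℝ}

/-- Chains of a larger class. -/
theorem GnW2.mono {o : Od n} {D D' l : ℕ} {g r : ℝ} (h : GnW2 hn S P P' o D l g r)
    (hD : D ≤ D') : GnW2 hn S P P' o D' l g r := by
  obtain ⟨aT, wT, eT, β, K₁, h1, h2, h3⟩ := h
  refine ⟨aT, wT, eT, β, K₁, h1, h2, Bas.mono 0 h3 ?_⟩
  rintro J - F A ⟨B, k1, k2, k3⟩
  exact ⟨B, k1, k2, ChN.cls k3 fun _ _ => hD⟩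

theorem GnW2.subS {o : Od n} {D l : ℕ} {g r : ℝ} (hs : SubS S' S)
    (h : GnW2 hn S P P' o D l g r) : GnW2 hn S' P P' o D l g r := by
  obtain ⟨aT, wT, eT, β, K₁, h1, h2, h3⟩ := h
  exact ⟨aT, wT, eT, β, K₁, h1, h2, h3.sub hs⟩

/-- **The class of the chains with gain** at a small radius. -/
noncomputable def DgC2 (hn : 2 ≤ n) (S : PCl n) (P : ℝ → ℝ → ℝ)
    (P' : ℕ → List (Fin n) × Fin n → ℝ → ℝ → ℝ) (o : Od n) (l : ℕ) (g : ℝ) : ℕ :=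
  open Classical in
  if h : ∃ D : ℕ, ∃ r₀ : ℝ, 0 < r₀ ∧ ∀ r : ℝ, 0 < r → r < r₀ → GnW2 hn S P P' o D l g r then
    Classical.choose h else 0

theorem dgC2_spec {o : Od n} {l : ℕ} {g : ℝ}
    (h : ∃ D : ℕ, ∃ r₀ : ℝ, 0 < r₀ ∧ ∀ r : ℝ, 0 < r → r < r₀ → GnW2 hn S P P' o D l g r) :
    ∃ r₀ : ℝ, 0 < r₀ ∧ ∀ r : ℝ, 0 < r → r < r₀ →
      GnW2 hn S P P' o (DgC2 hn S P P' o l g) l g r := by
  unfold DgC2
  rw [dif_pos h]
  exact Classical.choose_spec h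

theorem DiaR.mono {PW : ℕ → List (Fin n) × Fin n → ℝ → ℝ → ℝ} {o : Od n} {k : ℕ}
    {g r d d' : ℝ} (h : DiaR hn P P' PW o k g r d) (hd : d ≤ d') : DiaR hn P P' PW o k g r d' :=
  fun a ha => (h a ha).trans (by linarith)

/-- **The slopes for the labels of the coordinate** `l₁` at a small radius. -/
def SlG2 (hn : 2 ≤ n) (P : ℝ → ℝ → ℝ) (P' : ℕ → List (Fin n) × Fin n → ℝ → ℝ → ℝ) (l₁ : ℕ)
    (o : Od n) (g : ℝ) : Prop :=
  (∀ k < l₁, slN hn P P' o k g ≤ 2) ∧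
    ∀ k ≤ l₁, ∀ k' < k, slN hn P P' o k' g ≤ slN hn P P' o k g

/-- **The statements about the boxes**: chains with gain of the coordinate `l₁` at a small radius, no
better labels on the diagonal of the coordinates before. -/
structure KnV (hn : 2 ≤ n) (S : PCl n) (P : ℝ → ℝ → ℝ)
    (P' PW : ℕ → List (Fin n) × Fin n → ℝ → ℝ → ℝ) (l₁ : ℕ) (o : Od n) (g r d : ℝ) : Prop where
  gn2 : GnW2 hn S P P' o (DgC2 hn S P P' o l₁ g) l₁ g r
  dia : ∀ k < l₁, DiaR hn P P' PW o k g r d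

theorem KnV.mono {PW : ℕ → List (Fin n) × Fin n → ℝ → ℝ → ℝ} {l₁ : ℕ} {o : Od n}
    {g r d d' : ℝ} (hd : d ≤ d') (H : KnV hn S P P' PW l₁ o g r d) :
    KnV hn S P P' PW l₁ o g r d' :=
  ⟨H.gn2, fun k hk => (H.dia k hk).mono hd⟩

variable {H : PkT hn S P rr P' Λ PB} {hTop : TopS n} {hF : FZX (n - 1)} {h : ℝ}
  {ρ' : ℝ → ℝ} {hρ : Rle rr ρ'}

/-- **The windows where the coordinate `l₁` has chains with gain at a small radius.** -/
noncomputable def kpV2 (H : PkT hn S P rr P' Λ PB) (hTop : TopS n) (hF : FZX (n - 1))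
    (hρ : Rle rr ρ') (PW : ℕ → List (Fin n) × Fin n → ℝ → ℝ → ℝ) (l₁ : ℕ) :
    NumI.KndP ((H.nk hTop hF).chg hρ H.up) Unit where
  A c _ o g := SlG2 hn P P' l₁ (show Od n from o) g ∧
    (DgC2 hn S P P' (show Od n from o) l₁ g : ℝ) * c ≤ 1
  Φ _ o g r d := KnV hn S P P' PW l₁ (show Od n from o) g r d
  mono hd h := h.mono hd

/-- A window of this kind. -/
theorem kpV2_at {PW : ℕ → List (Fin n) × Fin n → ℝ → ℝ → ℝ} {l₁ : ℕ} {o : Od n} {g : ℝ}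
    (hA : SlG2 hn P P' l₁ o g)
    (hgn : ∃ D : ℕ, ∃ r₀ : ℝ, 0 < r₀ ∧ ∀ r : ℝ, 0 < r → r < r₀ → GnW2 hn S P P' o D l₁ g r)
    (hdia : ∀ k < l₁, Sml fun r d => DiaR hn P P' PW o k g r d) :
    (kpV2 H hTop hF hρ PW l₁).At () (show ((H.nk hTop hF).chg hρ H.up).O from o) g := by
  obtain ⟨Dd, hDd⟩ : ∃ Dd : ℝ, Dd = (DgC2 hn S P P' o l₁ g : ℝ) := ⟨_, rfl⟩
  have hD0 : 0 ≤ Dd := by rw [hDd]; exact Nat.cast_nonneg _
  refine ⟨1 / (Dd + 1), by positivity, fun c' h1 h2 => ⟨hA, ?_⟩, ?_⟩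
  · rw [le_div_iff₀ (by linarith)] at h2
    show (DgC2 hn S P P' o l₁ g : ℝ) * c' ≤ 1
    rw [← hDd]
    linarith
  · have k1 : Sml fun r d => ∀ k ∈ Finset.range l₁, DiaR hn P P' PW o k g r d :=
      Sml.all _ fun k hk => hdia k (Finset.mem_range.1 hk)
    have k2 : Sml fun r _ => GnW2 hn S P P' o (DgC2 hn S P P' o l₁ g) l₁ g r := by
      intro e he
      obtain ⟨r₀, h1, h2⟩ := dgC2_spec hgn
      exact ⟨r₀, h1, h2⟩
    exact (k2.and k1).mono fun r d _ h => ⟨h.1, fun k hk => h.2 k (Finset.mem_range.2 hk)⟩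

end Pool.PKG
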