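import Pool.Agent.H89.STG.Cls
import Pool.Agent.H25.STG.GnW2
import Pool.Agent.H25.STG.DiaR
import Pool.Agent.H78.TT.KpV

/-!
# The labels with gain of the second coordinate

`hasV_of`: the labels with gain of the coordinate `l₁` on large events of the boxes, at the windows
where the coordinate `l₁` is static with slope at least three, the coordinates before have slopes at
most two, and the slopes are sorted.
-/

set_option autoImplicit false

namespace Pool.PKG

open MeasureTheory Set Filter Topology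
open Pool.Agent.H49.Ent Pool.Agent.H32.Dense Pool.STK Pool.KA Pool.KSAT Pool.K2S Pool.PB
open Pool.GEN Pool.S6C Pool.STAT Pool.CHT Pool.GRW Pool.ONE Pool.STA
open Pool.LBT (LSys ThrOf)
open Pool.LEV (Law Lv)
open Pool.ALL (RateOf)
open Pool.TOP (TopS)
open Pool.RTS (iso Diag)
open Pool.STR (NumI CellD RowD NfB AffB Rle Nw ThinAt SteepAt StaAt)
open Pool.CHB (chsysB)
open Pool.STAT.CLO Pool.MIC6

variable {n : ℕ} {hn : 2 ≤ n} {S : PCl n} {P : ℝ → ℝ → ℝ} {rr : ℝ → ℝ}
  {P' : ℕ → List (Fin n) × Fin n → ℝ → ℝ → ℝ} {Λ : Finset (Fin n) → Fin n → ℝ → ℝ → ℝ}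
  {PB : ℕ → List (Fin n) × Fin n → ℝ → ℝ → ℝ}
  {H : PkT hn S P rr P' Λ PB} {hTop : TopS n} {hF : FZX (n - 1)} {h : ℝ}
  {ρ' : ℝ → ℝ} {hρ : Rle rr ρ'}

/-- **The labels with gain of a fast static coordinate**: its slope is at least three, the
coordinates before have slopes at most two, the slopes are sorted. -/
theorem hasV_of {l₀ l₁ : ℕ} (hl₁ : l₁ < n - 1) :
    HasV H hTop hF hρ h l₀ l₁ fun o g => SlG2 hn P P' l₁ o g ∧ 3 ≤ slN hn P P' o l₁ g ∧
      StaAt (LvL hn P P' o l₁) g := by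
  intro S' PW hs H' hPW
  refine ⟨Unit, inferInstance, kpV2 H hTop hF hρ PW l₁, ?_, fun o => ?_⟩
  · intro p hp κ kd y x c β h₁ M hc hβ hK
    have hI' := isK_mono p.cell kd c β h₁ M y
    refine vcoI_stg H' (hp.subS hs) (x := y) (kd := kd) (c := c) (β := β) (h' := h₁) (M := M) hc
      hI' (fun _ _ h => h) hPW hl₁ (fun ε q hq => (hK.A ε q hq).2.1.1)
      (fun ε q hq => (hK.A ε q hq).2.1.2) (fun ε q hq => (hK.A ε q hq).1.2.1)
      (fun k hk ε' hε' => (hK.Φ ε' hε').mono fun q h1 => h1.2.dia k hk) (DT := ⌊1 / c⌋₊)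
      (((hK.Φ 1 one_pos).and hI' (EvP.self _ one_pos)).mono fun q h1 =>
        (h1.1.2.gn2.mono ?_).subS hs)
    have h2 := (hK.A _ q h1.2).2.2
    refine Nat.le_floor ?_
    rw [le_div_iff₀ hc]
    exact h2
  · filter_upwards [H.gnW2_ae hTop hF, H'.dia_rgh_ae hTop hF hPW] with g k1 k2 R hrw hX
    obtain ⟨h1, h2, h3⟩ := hX
    exact ⟨(), kpV2_at h1 (k1 o R.mem l₁ hl₁ h3 h2) fun k hk => k2 o R.mem k (by omega)⟩

end Pool.PKG
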