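import Pool.Agent.H78.TT.KdD
import Pool.Agent.H78.TT.HvC
import Pool.Agent.H56.ASM.Xv

/-!
# The ties at the top speed with two static coordinates in the base

`noB_TwoG`: no boxes at the windows where exactly two coordinates of the base are static, the second
one with slope at least three. `lTs3`: no boxes at the windows `(1, 2, 3; 3)` with two static
coordinates in the base.
-/

set_option autoImplicit false

namespace Pool.PKG

open MeasureTheory Set Filter Topology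
open Pool.Agent.H49.Ent Pool.Agent.H32.Dense Pool.STK Pool.KA Pool.KSAT Pool.K2S Pool.PB
open Pool.GEN Pool.S6C Pool.STAT Pool.CHT Pool.GRW Pool.ONE Pool.STA
open Pool.LBT (LSys ThrOf)
open Pool.LEV (Law Lv)
open Pool.ALL (RateOf)
open Pool.TOP (TopS)
open Pool.RTS (iso Diag)
open Pool.STR (NumI CellD RowD NfB AffB Rle Nw ThinAt SteepAt StaAt)
open Pool.CHB (chsysB)
open Pool.STAT.CLO Pool.MIC6

variable {n : ℕ} {hn : 2 ≤ n} {S : PCl n} {P : ℝ → ℝ → ℝ} {rr : ℝ → ℝ}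
  {P' : ℕ → List (Fin n) × Fin n → ℝ → ℝ → ℝ} {Λ : Finset (Fin n) → Fin n → ℝ → ℝ → ℝ}
  {PB : ℕ → List (Fin n) × Fin n → ℝ → ℝ → ℝ}
  {H : PkT hn S P rr P' Λ PB} {hTop : TopS n} {hF : FZX (n - 1)} {h : ℝ}
  {ρ' : ℝ → ℝ} {hρ : Rle rr ρ'}

/-- **No boxes with ties at the top speed**, two coordinates of the base are static, the second one
with slope at least three; from (T) and the facts. -/
theorem noB_TwoG (hT : MicTStmt TopF) (hn4 : n ≤ 4) (hFk : ∀ k, 1 ≤ k → k < n → FZX k)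
    (hh : 0 < h) (hh1 : h ≤ 1) {l₀ l₁ : ℕ} (h01 : l₀ < l₁) (hl₁ : l₁ < n - 1)
    {X : Od n → ℝ → Prop} (hE : ExY H hTop hF hρ h X) :
    NoB H hTop hF hρ h fun o g => (ThW hn P P' PB o g ∧ SlLe hn P P' o g ∧ TiW hn P P' o g ∧
      TwoG hn P P' PB l₀ l₁ o g) ∧ X o g ∧ SlG2 hn P P' l₁ o g ∧ 3 ≤ slN hn P P' o l₁ g := by
  refine (noB_TC hT hn4 hFk hh hh1 h01 hl₁ hE (hasV_of (h := h) hl₁)).mono fun o => ?_
  filter_upwards [slo_two H hTop hF] with g ktwo R hX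
  obtain ⟨h1, h2, h3, h4⟩ := hX
  obtain ⟨hths, hn0, hn1, hth⟩ := h1.2.2.2
  exact ⟨h1, h2, h3, h4, (ktwo o R.mem l₁ hl₁ (fun k hk => hths k (hk.trans hl₁))
    (hths l₁ hl₁) hn1).1⟩

end Pool.PKG

namespace Pool.ASM

open MeasureTheory Set Filter Topology
open Pool.Agent.H49.Ent Pool.Agent.H32.Dense Pool.STK Pool.KA Pool.KSAT Pool.K2S Pool.PB
open Pool.GEN Pool.S6C Pool.GRW Pool.PKG Pool.STAT Pool.PM Pool.R1 Pool.Z4
open Pool.ONE (LocE Ext0 Ext rowN_of_ext)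
open Pool.TOP (TopS rw_all)
open Pool.LEV (Law Lv)
open Pool.STR (NumI TopW Mac StaAt IsoAt StaU1 ThinAt SteepAt Rle)
open Pool.MIC6
open Pool.SW (TopC NtO OneS NoTie Rgh Xa TieO NtP TopP LowT DifT)
open Pool.OWN72 (DiffS)

/-- **No boxes at the windows** `(1, 2, 3; 3)` with two static coordinates in the base, for all
packages. -/
theorem lTs3 : LTs3 4 := by
  intro hi hn hZ hF hTop S P r P' Λ PB H h hh hh1 ρ hρ hrow
  refine (noB_TwoG (H := H) (hTop := hTop) (hF := hF) (hρ := hρ) Pool.STAT.micT le_rfl hZ hh hh1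
    (l₀ := 1) (l₁ := 2) (by norm_num) (by norm_num)
    (exY_KE (H := H) hTop hF hρ le_rfl h)).mono fun o => ?_
  filter_upwards [one_zero H hTop hF o, slo_two H hTop hF] with g k1 k2 R hX
  have e0 : slN hn P P' o 0 g = 1 := by
    rw [slN_lvl o (by norm_num)]
    exact k1 R.mem
  have e1 := hX.s1
  have e2 := hX.s2
  have e3 := hX.sn
  have hle : ∀ l < 4 - 1, slN hn P P' o l g ≤ 3 ∧ (1 ≤ l → 1 < slN hn P P' o l g) := by
    intro l hl
    have h5 : l = 0 ∨ l = 1 ∨ l = 2 := by omega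
    rcases h5 with rfl | rfl | rfl
    · rw [e0]
      exact ⟨by norm_num, fun h => absurd h (by norm_num)⟩
    · rw [e1]
      exact ⟨by norm_num, fun _ => by norm_num⟩
    · rw [e2]
      exact ⟨le_rfl, fun _ => by norm_num⟩
  have ht0 : ThN hn P P' PB o 0 g := by
    by_contra h6
    have h7 := (k2 o R.mem 0 (by norm_num) (fun k hk => absurd hk (by omega))
      (hX.ths 0 (by norm_num)) h6).2
    rw [e0] at h7
    linarith
  refine ⟨⟨hX.th, fun l hl => ?_, ⟨2, by norm_num, ?_⟩, hX.ths, hX.nt1, hX.nt2,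
    fun l hl l1 l2 => ?_⟩, ⟨⟨?_, (oneN_iff H hTop hF o g).1 fun l hl hl' => (hle l hl').2 hl⟩,
    fun k l hk hkl hl => ?_⟩, ⟨?_, ?_⟩, e2.ge⟩
  · rw [e3]
    exact (hle l hl).1
  · rw [e2, e3]
  · obtain rfl : l = 0 := by omega
    exact ht0
  · have := hX.th.1
    rwa [slN_tar] at this
  · obtain ⟨rfl, rfl⟩ : k = 1 ∧ l = 2 := by omega
    rw [e1, e2]
    norm_num
  · intro k hk
    have h5 : k = 0 ∨ k = 1 := by omega
    rcases h5 with rfl | rfl
    · rw [e0]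
      norm_num
    · rw [e1]
  · intro k hk k' hk'
    have h5 : (k = 1 ∧ k' = 0) ∨ (k = 2 ∧ k' = 0) ∨ (k = 2 ∧ k' = 1) := by omega
    rcases h5 with ⟨rfl, rfl⟩ | ⟨rfl, rfl⟩ | ⟨rfl, rfl⟩
    · rw [e0, e1]
      norm_num
    · rw [e0, e2]
      norm_num
    · rw [e1, e2]
      norm_num

end Pool.ASM
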