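import Pool.Agent.H48.TC.All

/-!
# (T), the local theorem

`micT`: (T) for the slopes `TopF`.
-/

set_option autoImplicit false

namespace Pool.STAT

/-- **(T)**: the local theorem, at most four coordinates. -/
theorem micT : MicTStmt TopF := by
  refine Pool.TC.micT_top.mono fun n gam hgn hQ => ?_
  obtain ⟨h2, h3, h4, l₀, h5, h6, h7⟩ := hQ
  exact Pool.TC.topM_four h2 h3 h4 h5 h6 h7 hgn

end Pool.STAT
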