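import Pool.Agent.H78.TT.SlpF
import Pool.Agent.H78.TT.Stn
import Pool.Agent.H78.MIC.ClsG
import Pool.Agent.H78.MIC.BsC

/-!
# The joint property of the cells of (T)

`fld_nfc1`: the closed lower bound with the deficit one is trivial. `ext_T`: the joint property of (T)
from that of P4, from full entropy modulo the directions and from the absence of slabs.
-/

set_option autoImplicit false

namespace Pool.STAT

open Finset MvPolynomial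
open Pool.Agent.H49.Ent Pool.Agent.H32.Dense Pool.STK Pool.KS3 Pool.KA Pool.KSAT Pool.PB Pool.GEN
open Pool.K2S Pool.S6C
open Pool.P4 (NFc1)
open Pool.STAT.CLO

variable {Θ : Type*} {I : ℝ → Θ → Prop} {m n₀ : ℕ}

/-- **The closed lower bound with the deficit one** is trivial. -/
theorem fld_nfc1 {S : PCl m} (Kt : KitP m Θ n₀) {K' s₁ : ℕ} {sh : ℕ → ℕ} {C₁ : ℝ} (hC₁ : 0 ≤ C₁)
    (B M N : ℕ) (θ : ℝ) (p : Θ) :
    Kt.FldN S K' s₁ sh M N θ p fun G J F D q => ∀ gam' : ℕ → ℝ,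
      NFc1 (Kt.nd p N M θ G F D) G.n (up G.ζ J) G.M B gam' 1 C₁ q := by
  intro b e _
  refine ⟨1, one_pos, 0, fun J _ F A _ D _ gam' i _ _ j _ U _ _ => ?_⟩
  rw [sub_self, zero_mul, zero_mul, zero_sub]
  have h1 : (0 : ℝ) ≤ C₁ * (up (Kt.grid K' s₁ sh p N M θ b e).ζ J) :=
    mul_nonneg hC₁ (Nat.cast_nonneg _)
  exact (neg_nonpos.2 h1).trans (CH_nonneg (fun ω => cond_nonneg F.isLaw.nonneg A True ω) _ _)

/-- **The joint property of (T)**, from that of P4 and from full entropy modulo the directions. -/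
theorem ext_T (hI : MonoI I) {S : PCl m} (Kt : KitP m Θ n₀) (hinj : ∀ p, Inj (Kt.cs p) (n₀ + 1))
    (hml : ∀ p, ∀ l < n₀ + 1, Kt.ml p l = 1) {T' : ℝ}
    (fcel : ∀ ε' : ℝ, 0 < ε' → EvP I fun p =>
      CellL (n₀ + 1) (Kt.L p) ε' T' (Kt.y p) (Kt.X p) (Kt.la p) (Kt.ml p))
    {K' s₁ : ℕ} {sh : ℕ → ℕ} (hK' : 1 ≤ K') {K₀ : ℕ} {Tl R : ℕ → Prop} {PB : ℕ → Prop} {x : ℝ}
    (h4 : ∃ C₄ : ℝ, ∀ C₁ ≥ C₄, ∀ B : ℕ, 1 ≤ B → PB B → ∀ (M Q K'' : ℕ) (η' κ : ℝ), 0 < η' →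
      0 < κ → EvQ I fun N θ p => Kt.FldN S K' s₁ sh M N θ p fun G J F D q =>
        (XP4 K₀ 1 R x).nb B (lamS (n₀ + 1) (Kt.ml p)) (gamS (n₀ + 1) (Kt.la p) (Kt.ml p)) G.n J
          (up G.α J) (up G.ϖ J) (up G.ζ J) G.M Q K'' η' κ C₁ (Kt.nd p N M θ G F D) q)
    (hft : ∃ C₄ : ℝ, ∀ C₁ ≥ C₄, ∀ (M K'' : ℕ) (κ : ℝ), 0 < κ → EvQ I fun N θ p =>
      Kt.FldN S K' s₁ sh M N θ p fun G J F D q =>
        (Kt.nd p N M θ G F D).NFt Tl G.n J (up G.ϖ J) (up G.ζ J) G.M K'' C₁ κ q)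
    (hsl : ∃ C₄ : ℝ, ∀ C₁ ≥ C₄, ∀ (M K'' : ℕ) (κ : ℝ), 0 < κ → EvQ I fun N θ p =>
      Kt.FldN S K' s₁ sh M N θ p fun G J F D q =>
        (Kt.nd p N M θ G F D).NoSl G.n J (up G.ϖ J) (up G.ζ J) G.M K'' C₁ κ q) :
    ∃ C₄ : ℝ, ∀ C₁ ≥ C₄, ∀ B : ℕ, 1 ≤ B → PB B → ∀ (M Q K'' : ℕ) (η' κ : ℝ), 0 < η' → 0 < κ →
      EvQ I fun N θ p => Kt.FldN S K' s₁ sh M N θ p fun G J F D q =>
        (XT Tl R K₀ 1).nb B (lamS (n₀ + 1) (Kt.ml p)) (gamS (n₀ + 1) (Kt.la p) (Kt.ml p)) G.n J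
          (up G.α J) (up G.ϖ J) (up G.ζ J) G.M Q K'' η' κ C₁ (Kt.nd p N M θ G F D) q := by
  obtain ⟨C₄, h4⟩ := h4
  obtain ⟨C₅, hft⟩ := hft
  obtain ⟨C₆, hsl⟩ := hsl
  refine ⟨max C₄ (max C₅ C₆), fun C₁ hC₁ B hB hPB M Q K'' η' κ hη hκ => ?_⟩
  have c5 : C₅ ≤ C₁ := ((le_max_left _ _).trans (le_max_right _ _)).trans hC₁
  have c6 : C₆ ≤ C₁ := ((le_max_right _ _).trans (le_max_right _ _)).trans hC₁
  refine ((h4 C₁ ((le_max_left _ _).trans hC₁) B hB hPB M Q K'' η' κ hη hκ).and hI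
    (((hft C₁ c5 M K'' κ hκ).and hI (hsl C₁ c6 M K'' κ hκ)).and hI
      (slp_P hI Kt hinj hml fcel (s₁ := s₁) (sh := sh) (S := S) hK' M))).mono fun N θ p hp => ?_
  refine (hp.1.and ((hp.2.1.1.and hp.2.1.2).and hp.2.2)).mono
    fun b e J F D q hq lam' gam' l1 l2 l3 l4 => ?_
  obtain ⟨m1, -, m2⟩ := hq.1 lam' gam' l1 l2 l3 l4
  exact ⟨m1, strt_nd _ _ _ _ _ _ _ _ _, hq.2.2, hq.2.1.1, hq.2.1.2, m2⟩

end Pool.STAT
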