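import Pool.Agent.H78.TT.KdA
import Pool.Agent.H78.MIC.ClsG

/-!
# No boxes with ties at the top speed, one coordinate has labels with gain

`cls_TB`: no boxes of a kind with ties, one coordinate has a label with gain, the others are rough,
from a local theorem. `kpB`: the windows of this kind. The class where the local theorem is used may
be a subclass (see `SubT`).
-/

set_option autoImplicit false

namespace Pool.PKG

open MeasureTheory Set Filter Topology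
open Pool.Agent.H49.Ent Pool.Agent.H32.Dense Pool.STK Pool.KA Pool.KSAT Pool.K2S Pool.PB
open Pool.GEN Pool.S6C Pool.STAT Pool.CHT Pool.GRW Pool.ONE Pool.STA
open Pool.LBT (LSys ThrOf)
open Pool.LEV (Law Lv)
open Pool.ALL (RateOf)
open Pool.TOP (TopS)
open Pool.RTS (iso Diag)
open Pool.STR (NumI CellD RowD NfB AffB Rle Nw)
open Pool.ISO (ChI)
open Pool.CHB (chsysB)
open Pool.STAT.CLO Pool.MIC6
open Pool.P4 (NFc1)

variable {n : ℕ} {hn : 2 ≤ n} {S : PCl n} {P : ℝ → ℝ → ℝ} {rr : ℝ → ℝ}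
  {P' : ℕ → List (Fin n) × Fin n → ℝ → ℝ → ℝ} {Λ : Finset (Fin n) → Fin n → ℝ → ℝ → ℝ}
  {PB : ℕ → List (Fin n) × Fin n → ℝ → ℝ → ℝ}
  (H : PkT hn S P rr P' Λ PB) {hTop : TopS n} {hF : FZX (n - 1)} {h : ℝ}
  {ρ' : ℝ → ℝ} {hρ : Rle rr ρ'}

/-- **No boxes of a kind with ties, one coordinate has a label with gain**: `Qc` is a condition for
the slopes. -/
theorem cls_TB {Qc : CondN} (hQc : Qc.Cl (n - 1 + 1)) {Tl : ℕ → Prop} {l₀ : ℕ} (hl₀ : l₀ < n - 1)
    (hP : ∀ K' : ℕ, MicX (XT Tl (fun u => u ≠ l₀ + 1) K' 1) Qc (fun B => B = n + 2)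
      (n - 1 + 1) K' h)
    (hh : 0 < h) (hh1 : h ≤ 1) {p : ((H.nk hTop hF).chg hρ H.up).Par} (hpI : AdP H p)
    {ι : Type} {kd : p.cell.α → ι} {c β h' M : ℝ} {x : ι}
    (hexn : ExnI H p (IsK p.cell kd c β h' M x)) (hexs : ExsI H p (IsK p.cell kd c β h' M x))
    (hnft : NftI H p Tl (IsK p.cell kd c β h' M x)) (hnsl : NslI H p (IsK p.cell kd c β h' M x))
    (hc : 0 < c) (hβ : 0 < β)
    (hQ : ∀ q ε K₀, IsK p.cell kd c β h' M x ε q → Qc (fun _ => 1)
      (gamS (n - 1 + 1) ((kitN H p K₀).kit.la q) ((kitN H p K₀).kit.ml q)))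
    (hrow : ∀ ε' : ℝ, 0 < ε' → EvP (IsK p.cell kd c β h' M x) fun q =>
      NfB rr h (ε' * q.r) (P q.g q.g - q.r) (P q.g q.g + 3 * q.r))
    (hsrt : ∀ ε q, IsK p.cell kd c β h' M x ε q → ∀ k < n - 1, ∀ k' < k,
      dgN hn P P' (show Od n from q.k.2) k' q.g ≤ dgN hn P P' (show Od n from q.k.2) k q.g)
    {PW : ℕ → List (Fin n) × Fin n → ℝ → ℝ → ℝ}
    (hPW : ∀ j, ThrOf (chsysB n none (P' j)) S (PW j))
    (hrgh : ∀ l ≤ n - 1, l ≠ l₀ → ∀ ε' : ℝ, 0 < ε' → EvP (IsK p.cell kd c β h' M x) fun q =>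
      Box7 q.g q.r fun a w => bet (PW (show Od n from q.k.2).2)
        (cc hn (show Od n from q.k.2).1.1) l a w ≤
          dgN hn P P' (show Od n from q.k.2) l w + (a - w) + ε' * q.r)
    (hcon : ∀ ε' : ℝ, 0 < ε' → EvP (IsK p.cell kd c β h' M x) fun q =>
      Box7 q.g q.r fun a w => dgN hn P P' (show Od n from q.k.2) l₀ w + 2 * (a - w) ≤
        bet (P' (show Od n from q.k.2).2) (cc hn (show Od n from q.k.2).1.1) l₀ a w + ε' * q.r)
    {DT : ℕ} (hgn : EvP (IsK p.cell kd c β h' M x) fun q =>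
      GnW hn S P P' (show Od n from q.k.2) DT l₀ q.g q.r) :
    EvP (IsK p.cell kd c β h' M x) fun _ => False := by
  obtain ⟨K₀, K', s₁, sh, hK₀, hK', hgrd⟩ := cls_grd n hc
  have hI' := isK_mono p.cell kd c β h' M x
  have hsub := isK_sub p.cell kd c β h' M x
  have hlt := cls_hlt H hpI (c := c) (β := β) (hh := h') (M := M)
  have exn : ∀ k : ℝ, 0 < k → ∀ M' : ℕ, EvQ (IsK p.cell kd c β h' M x) fun N θ q =>
      (kitN H p K₀).kit.FldN S K' s₁ sh M' N θ q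
        fun G J F D q' => OKI.ExN D G.c G.n G.sh ((kitN H p K₀).kit.rc q N M' θ J F D)
          (up G.ϖ J) (up G.ζ J) G.M (G.gn J) (k * up G.ζ J) q' := hexn K₀ K' s₁ sh hK₀ hK'
  have exs : ∀ k : ℝ, 0 < k → ∀ M' : ℕ, EvQ (IsK p.cell kd c β h' M x) fun N θ q =>
      (kitN H p K₀).kit.FldN S K' s₁ sh M' N θ q
        fun G J F D q' => ExS D G.c G.n G.sh G.M (G.gn J) (k * up G.ζ J) q' :=
    hexs K₀ K' s₁ sh hK₀ hK'
  obtain ⟨C₄, hnft⟩ := hnft K₀ K' s₁ sh hK₀ hK'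
  obtain ⟨C₅, hnsl⟩ := hnsl K₀ K' s₁ sh hK₀ hK'
  have fcel := kit_cel H hpI (kd := kd) (h' := h') (M := M) hc hβ x K₀
  have hml : ∀ (q : BS p.cell), ∀ l < n - 1 + 1, (kitN H p K₀).kit.ml q l = 1 := fun _ _ _ => rfl
  -- the label with gain
  obtain ⟨S₂, hVc⟩ := hV_con hI' H.tmh (kitN H p K₀).kit hml (fun q => kit_inj H p K₀ q.k)
    (s₁ := s₁) (sh := sh) hK' fcel (be := fun q => P' (show Od n from q.k.2).2)
    (P := fun q => PW (show Od n from q.k.2).2) (fun q => hPW _) (l := l₀) (by omega)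
    (fun q k hk a w h0 h1 h2 => kit_Lp H q (by omega) a w h0 h1 h2)
    (fun k hk => kit_rgh H K₀ hPW (hrgh k (by omega) (by omega)))
    (kit_srt H K₀ hsrt hl₀) (DT := DT) (hgn.mono fun q h1 => by
      obtain ⟨aT, wT, eT, β', K₁, k1, k2, k3⟩ := h1
      refine ⟨aT, wT, eT, β', K₁, k1, ?_, k3⟩
      have e1 : (kitN H p K₀).kit.L q = fun k => iso (dgN hn P P' (show Od n from q.k.2) k) := by
        funext k
        show iso ((kitN H p K₀).Dg q k) = _
        rw [kit_dg H q k]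
      rw [e1]
      exact k2)
  obtain ⟨K₂, hK₂⟩ : ∃ K₂, K₂ = max (kitN H p K₀).kit.K DT := ⟨_, rfl⟩
  rw [← hK₂] at hVc
  obtain ⟨W₀, hW₀⟩ : ∃ W₀ : BS p.cell → ℕ → ℕ → ℝ → GrdP n, W₀ = fun q N M θ J F D A =>
      (kitN H p K₀).kit.W q N M θ J F D A ∧
        (kitN H p K₀).kit.Wco l₀ K₂ S₂ q N M θ J F D A := ⟨_, rfl⟩
  have her₀ : ∀ q N M θ, (W₀ q N M θ).Her := by
    intro q N M θ
    rw [hW₀]
    exact GrdP.Her.and ((kitN H p K₀).kit.her q N M θ) ((kitN H p K₀).kit.wco_her l₀ K₂ S₂ q N M θ)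
  have hWs₀ : ∀ q N M θ (J : ℕ) (F : Fam n J) (D : GDat F) (A : F.Ω → Prop),
      W₀ q N M θ J F D A → (kitN H p K₀).kit.W q N M θ J F D A ∧
        (kitN H p K₀).kit.Wco l₀ K₂ S₂ q N M θ J F D A := by
    intro q N M θ J F D A h1
    rw [hW₀] at h1
    exact h1
  obtain ⟨W, her, hfact⟩ := factIN H.tmh ((kitN H p K₀).setW W₀ her₀) (kit_inj H p K₀) (K' := K')
    (s₁ := s₁) (sh := sh) hK' hc hβ (cls_hP H) (cls_hD H) hlt hI' hsub
    (Qc := Qc) (X := XT Tl (fun u => u ≠ l₀ + 1) (max K' K₂) 1) (PB := fun B => B = n + 2)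
    (h₁ := h) ⟨1, one_pos, fun q hq => hQ q 1 K₀ hq⟩
    (fun _ _ _ _ _ _ _ _ _ => inferInstanceAs (Subsingleton Unit))
    (fun q N M θ J F D A h1 i hi j hj => ((wBal.com (hWs₀ q N M θ J F D A h1).1) i hi j hj).2)
    (fun M' => grd_and hI' (fun q N M θ J F D A h1 h2 => by
      show W₀ q N M θ J F D A
      rw [hW₀]
      exact ⟨h1, h2⟩) ((hgrd H hpI hβ M').sub hsub) (hVc M'))
    (fun k hk M' => (exn k hk M').mono fun N θ q h1 => h1.setW
      (fun J F D A h2 => (hWs₀ q N M' θ J F D A h2).1) fun _ _ _ _ _ _ h2 => h2)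
    (fun W her hWs ok2 => by
      obtain ⟨C₃, hnf⟩ := nf_U hI' H.tmh.1 H.zc ((kitN H p K₀).kit.setW W her)
        (fun _ _ _ => rfl) (fun q => kit_inj H p K₀ q.k) (fun q => kit_cov H p K₀ q.k)
        (fun q => kit_rate H p K₀ q.k) (s₁ := s₁) (sh := sh) hK' hh hh1
        (fun ε' hε' => kit_row H K₀ hrow ε' hε') fcel
        (fun k hk M' => (exs k hk M').mono fun N θ q h1 => h1.setW
          (fun J F D A h2 => (hWs₀ q N M' θ J F D A (hWs q N M' θ J F D A h2)).1)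
          fun _ _ _ _ _ _ h2 => h2) ok2
      refine ⟨⟨C₃, fun C₁ hC₁ => ⟨n + 2, by omega, rfl, fun M' => hnf C₁ hC₁ (n + 2)
        (by have := hn; omega) M'⟩⟩, ?_⟩
      refine ext_T hI' ((kitN H p K₀).kit.setW W her) (fun q => kit_inj H p K₀ q.k) hml fcel hK'
        (x := 1) (ext_C hI' H.tmh ((kitN H p K₀).kit.setW W her) hml fcel hK' (K₂ := K₂)
        (S₂ := S₂) hl₀ (fun q N M θ J F D A h1 => (hWs₀ q N M θ J F D A (hWs q N M θ J F D A h1)).2)
        (be := fun q => P' (show Od n from q.k.2).2)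
        (P := fun q => PW (show Od n from q.k.2).2) (fun q => hPW _)
        (fun q l hl _ a w h0 h1 h2 => kit_Lp H q hl a w h0 h1 h2) ?_
        (fun l hl h1 => kit_rgh H K₀ hPW (hrgh l hl h1)) ?_) ?_ ?_
      · refine ((hcon (1 / 32) (by norm_num)).and hI' (EvP.self _ one_pos)).mono
          fun q hq a w h1 h2 h3 h4 => ?_
        obtain ⟨hc1, hq⟩ := hq
        have hr := hq.is.r0
        change q.g ≤ w at h1
        change w ≤ q.g + q.r / 16 at h2
        change q.g + q.r ≤ a at h3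
        change a ≤ q.g + q.r + q.r / 16 at h4
        have h5 := hc1 a w (by linarith) (by linarith) (by linarith)
        have h6 : (kitN H p K₀).kit.L q l₀ = iso (dgN hn P P' (show Od n from q.k.2) l₀) := by
          show iso ((kitN H p K₀).Dg q l₀) = _
          rw [kit_dg H q l₀]
        have h7 := Pool.RTS.iso_le (dgN hn P P' (show Od n from q.k.2) l₀) a w
        show (kitN H p K₀).kit.L q l₀ a w + q.r / 32 ≤
          bet (P' (show Od n from q.k.2).2) (cc hn (show Od n from q.k.2).1.1) l₀ a w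
        rw [h6]
        linarith
      · exact ⟨0, fun C₁ hC₁ B _ _ M' => ⟨0, fun N _ => ⟨1, one_pos, fun θ _ _ => EvP.of fun q =>
          (fld_nfc1 ((kitN H p K₀).kit.setW W her) hC₁ B M' N θ q).mono
            fun _ _ _ _ _ _ h1 gam' _ _ => h1 gam'⟩⟩⟩
      · exact ⟨C₄, fun C₁ hC₁ M' K'' κ hκ => (hnft C₁ hC₁ M' K'' κ hκ).mono fun N θ q h2 =>
          h2.setW (fun J F D A h3 => (hWs₀ q N M' θ J F D A (hWs q N M' θ J F D A h3)).1)
            fun _ _ _ _ _ _ h3 => h3⟩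
      · exact ⟨C₅, fun C₁ hC₁ M' K'' κ hκ => (hnsl C₁ hC₁ M' K'' κ hκ).mono fun N θ q h2 =>
          h2.setW (fun J F D A h3 => (hWs₀ q N M' θ J F D A (hWs q N M' θ J F D A h3)).1)
            fun _ _ _ _ _ _ h3 => h3⟩)
  exact evX_false hI' (xT_mono Tl _ (max K' K₂) 1) H.ne H.tmh.1 _ hh1 hQc
    ((hP (max K' K₂)).monoK (le_max_left _ _)) hfact

/-- **The windows with ties, one coordinate has labels with gain**, the others are rough; the second
part of the index is the set of the tied coordinates. -/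
noncomputable def kpB (H : PkT hn S P rr P' Λ PB) (hTop : TopS n) (hF : FZX (n - 1))
    (hρ : Rle rr ρ') (h : ℝ) (PW : ℕ → List (Fin n) × Fin n → ℝ → ℝ → ℝ) :
    NumI.KndP ((H.nk hTop hF).chg hρ H.up) (Fin (n - 1) × Finset (Fin n)) where
  A c x o g := SlA hn P P' c x.2 (show Od n from o) g ∧
    SrtN hn P P' (show Od n from o) g ∧
    (DgC hn S P P' (show Od n from o) x.1 g : ℝ) * c ≤ 1
  Φ x o g r d := KnC hn S P rr P' PW h x.1 (show Od n from o) g r d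
  mono hd h := h.mono hd

variable {H}

/-- A window of this kind. -/
theorem kpB_at {PW : ℕ → List (Fin n) × Fin n → ℝ → ℝ → ℝ} {o : Od n} {g : ℝ}
    {l₀ : Fin (n - 1)} {T : Finset (Fin n)}
    (hA : ∃ c : ℝ, 0 < c ∧ ∀ c' : ℝ, 0 < c' → c' ≤ c → SlA hn P P' c' T o g)
    (hsrt : SrtN hn P P' o g)
    (hrow : Sml fun r d => NfB rr h d (P g g - r) (P g g + 3 * r))
    (hrgh : ∀ l ≤ n - 1, l ≠ l₀ → Sml fun r d => Box7 g r fun a w =>
      bet (PW o.2) (cc hn o.1.1) l a w ≤ dgN hn P P' o l w + (a - w) + d)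
    (hcon : Sml fun r d => Box7 g r fun a w =>
      dgN hn P P' o l₀ w + 2 * (a - w) ≤ bet (P' o.2) (cc hn o.1.1) l₀ a w + d)
    (hgn : ∃ D : ℕ, ∃ r₀ : ℝ, 0 < r₀ ∧ ∀ r : ℝ, 0 < r → r < r₀ → GnW hn S P P' o D l₀ g r) :
    (kpB H hTop hF hρ h PW).At (l₀, T) (show ((H.nk hTop hF).chg hρ H.up).O from o) g :=
  kpC_at (H := H) (hTop := hTop) (hF := hF) (hρ := hρ) (h := h)
    (As := fun c' _ o g => SlA hn P P' c' T o g) (l₀ := l₀) hA hsrt hrow hrgh hcon hgn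

end Pool.PKG
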