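import Pool.Agent.H78.TT.Vco
import Pool.Agent.H25.STG.ConG

/-!
# No boxes with ties at the top speed, two coordinates have labels with gain

`cls_TC`: no boxes of a kind with ties, two coordinates have labels with gain, the others are rough,
from a local theorem.
-/

set_option autoImplicit false

namespace Pool.PKG

open MeasureTheory Set Filter Topology
open Pool.Agent.H49.Ent Pool.Agent.H32.Dense Pool.STK Pool.KA Pool.KSAT Pool.K2S Pool.PB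
open Pool.GEN Pool.S6C Pool.STAT Pool.CHT Pool.GRW Pool.ONE Pool.STA
open Pool.LBT (LSys ThrOf)
open Pool.LEV (Law Lv)
open Pool.ALL (RateOf)
open Pool.TOP (TopS)
open Pool.RTS (iso Diag)
open Pool.STR (NumI CellD RowD NfB AffB Rle Nw)
open Pool.ISO (ChI)
open Pool.CHB (chsysB)
open Pool.STAT.CLO Pool.MIC6
open Pool.P4 (NFc1)

variable {n : ℕ} {hn : 2 ≤ n} {S : PCl n} {P : ℝ → ℝ → ℝ} {rr : ℝ → ℝ}
  {P' : ℕ → List (Fin n) × Fin n → ℝ → ℝ → ℝ} {Λ : Finset (Fin n) → Fin n → ℝ → ℝ → ℝ}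
  {PB : ℕ → List (Fin n) × Fin n → ℝ → ℝ → ℝ}
  (H : PkT hn S P rr P' Λ PB) {hTop : TopS n} {hF : FZX (n - 1)} {h : ℝ}
  {ρ' : ℝ → ℝ} {hρ : Rle rr ρ'}

/-- **No boxes of a kind with ties, two coordinates have labels with gain**: `Qc` is a condition for
the slopes. -/
theorem cls_TC {Qc : CondN} (hQc : Qc.Cl (n - 1 + 1)) {Tl : ℕ → Prop} {l₀ l₁ : ℕ} (h01 : l₀ < l₁)
    (hl₁ : l₁ < n - 1)
    (hP : ∀ K' : ℕ, MicX (XT Tl (fun u => u ≠ l₀ + 1 ∧ u ≠ l₁ + 1) K' 1) Qc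
      (fun B => B = n + 2) (n - 1 + 1) K' h)
    (hh : 0 < h) (hh1 : h ≤ 1) {p : ((H.nk hTop hF).chg hρ H.up).Par} (hpI : AdP H p)
    {ι : Type} {kd : p.cell.α → ι} {c β h' M : ℝ} {x : ι}
    (hexn : ExnI H p (IsK p.cell kd c β h' M x)) (hexs : ExsI H p (IsK p.cell kd c β h' M x))
    (hnft : NftI H p Tl (IsK p.cell kd c β h' M x)) (hnsl : NslI H p (IsK p.cell kd c β h' M x))
    (hV0 : VcoI H p l₀ (IsK p.cell kd c β h' M x)) (hV1 : VcoI H p l₁ (IsK p.cell kd c β h' M x))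
    (hc : 0 < c) (hβ : 0 < β)
    (hQ : ∀ q ε K₀, IsK p.cell kd c β h' M x ε q → Qc (fun _ => 1)
      (gamS (n - 1 + 1) ((kitN H p K₀).kit.la q) ((kitN H p K₀).kit.ml q)))
    (hrow : ∀ ε' : ℝ, 0 < ε' → EvP (IsK p.cell kd c β h' M x) fun q =>
      NfB rr h (ε' * q.r) (P q.g q.g - q.r) (P q.g q.g + 3 * q.r))
    {PW : ℕ → List (Fin n) × Fin n → ℝ → ℝ → ℝ}
    (hPW : ∀ j, ThrOf (chsysB n none (P' j)) S (PW j))
    (hrgh : ∀ l ≤ n - 1, l ≠ l₀ → l ≠ l₁ → ∀ ε' : ℝ, 0 < ε' →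
      EvP (IsK p.cell kd c β h' M x) fun q =>
      Box7 q.g q.r fun a w => bet (PW (show Od n from q.k.2).2)
        (cc hn (show Od n from q.k.2).1.1) l a w ≤
          dgN hn P P' (show Od n from q.k.2) l w + (a - w) + ε' * q.r)
    (hcon0 : ∀ ε' : ℝ, 0 < ε' → EvP (IsK p.cell kd c β h' M x) fun q =>
      Box7 q.g q.r fun a w => dgN hn P P' (show Od n from q.k.2) l₀ w + 2 * (a - w) ≤
        bet (P' (show Od n from q.k.2).2) (cc hn (show Od n from q.k.2).1.1) l₀ a w + ε' * q.r)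
    (hcon1 : ∀ ε' : ℝ, 0 < ε' → EvP (IsK p.cell kd c β h' M x) fun q =>
      Box7 q.g q.r fun a w => dgN hn P P' (show Od n from q.k.2) l₁ w + 2 * (a - w) ≤
        bet (P' (show Od n from q.k.2).2) (cc hn (show Od n from q.k.2).1.1) l₁ a w + ε' * q.r) :
    EvP (IsK p.cell kd c β h' M x) fun _ => False := by
  obtain ⟨K₀, K', s₁, sh, hK₀, hK', hgrd⟩ := cls_grd n hc
  have hI' := isK_mono p.cell kd c β h' M x
  have hsub := isK_sub p.cell kd c β h' M x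
  have hlt := cls_hlt H hpI (c := c) (β := β) (hh := h') (M := M)
  have exn : ∀ k : ℝ, 0 < k → ∀ M' : ℕ, EvQ (IsK p.cell kd c β h' M x) fun N θ q =>
      (kitN H p K₀).kit.FldN S K' s₁ sh M' N θ q
        fun G J F D q' => OKI.ExN D G.c G.n G.sh ((kitN H p K₀).kit.rc q N M' θ J F D)
          (up G.ϖ J) (up G.ζ J) G.M (G.gn J) (k * up G.ζ J) q' := hexn K₀ K' s₁ sh hK₀ hK'
  have exs : ∀ k : ℝ, 0 < k → ∀ M' : ℕ, EvQ (IsK p.cell kd c β h' M x) fun N θ q =>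
      (kitN H p K₀).kit.FldN S K' s₁ sh M' N θ q
        fun G J F D q' => ExS D G.c G.n G.sh G.M (G.gn J) (k * up G.ζ J) q' :=
    hexs K₀ K' s₁ sh hK₀ hK'
  obtain ⟨C₄, hnft⟩ := hnft K₀ K' s₁ sh hK₀ hK'
  obtain ⟨C₅, hnsl⟩ := hnsl K₀ K' s₁ sh hK₀ hK'
  have fcel := kit_cel H hpI (kd := kd) (h' := h') (M := M) hc hβ x K₀
  have hml : ∀ (q : BS p.cell), ∀ l < n - 1 + 1, (kitN H p K₀).kit.ml q l = 1 := fun _ _ _ => rfl
  -- the labels with gain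
  obtain ⟨K₃, S₃, hV0⟩ := hV0 K₀ K' s₁ sh hK₀ hK'
  obtain ⟨K₄, S₄, hV1⟩ := hV1 K₀ K' s₁ sh hK₀ hK'
  obtain ⟨K₂, hK₂⟩ : ∃ K₂, K₂ = max K₃ K₄ := ⟨_, rfl⟩
  obtain ⟨S₂, hS₂⟩ : ∃ S₂, S₂ = max S₃ S₄ := ⟨_, rfl⟩
  have k3 : K₃ ≤ K₂ := by rw [hK₂]; exact le_max_left _ _
  have k4 : K₄ ≤ K₂ := by rw [hK₂]; exact le_max_right _ _
  have s3 : S₃ ≤ S₂ := by rw [hS₂]; exact le_max_left _ _
  have s4 : S₄ ≤ S₂ := by rw [hS₂]; exact le_max_right _ _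
  obtain ⟨W₁, hW₁⟩ : ∃ W₁ : BS p.cell → ℕ → ℕ → ℝ → GrdP n, W₁ = fun q N M θ J F D A =>
      (kitN H p K₀).kit.W q N M θ J F D A ∧
        (kitN H p K₀).kit.Wco l₀ K₂ S₂ q N M θ J F D A := ⟨_, rfl⟩
  obtain ⟨W₀, hW₀⟩ : ∃ W₀ : BS p.cell → ℕ → ℕ → ℝ → GrdP n, W₀ = fun q N M θ J F D A =>
      W₁ q N M θ J F D A ∧ (kitN H p K₀).kit.Wco l₁ K₂ S₂ q N M θ J F D A := ⟨_, rfl⟩
  have her₁ : ∀ q N M θ, (W₁ q N M θ).Her := by
    intro q N M θ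
    rw [hW₁]
    exact GrdP.Her.and ((kitN H p K₀).kit.her q N M θ) ((kitN H p K₀).kit.wco_her l₀ K₂ S₂ q N M θ)
  have her₀ : ∀ q N M θ, (W₀ q N M θ).Her := by
    intro q N M θ
    rw [hW₀]
    exact GrdP.Her.and (her₁ q N M θ) ((kitN H p K₀).kit.wco_her l₁ K₂ S₂ q N M θ)
  have hWs₁ : ∀ q N M θ (J : ℕ) (F : Fam n J) (D : GDat F) (A : F.Ω → Prop),
      W₁ q N M θ J F D A → (kitN H p K₀).kit.W q N M θ J F D A ∧
        (kitN H p K₀).kit.Wco l₀ K₂ S₂ q N M θ J F D A := by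
    intro q N M θ J F D A h1
    rw [hW₁] at h1
    exact h1
  have hWs₀ : ∀ q N M θ (J : ℕ) (F : Fam n J) (D : GDat F) (A : F.Ω → Prop),
      W₀ q N M θ J F D A → ((kitN H p K₀).kit.W q N M θ J F D A ∧
        (kitN H p K₀).kit.Wco l₀ K₂ S₂ q N M θ J F D A) ∧
        (kitN H p K₀).kit.Wco l₁ K₂ S₂ q N M θ J F D A := by
    intro q N M θ J F D A h1
    rw [hW₀, hW₁] at h1
    exact h1
  obtain ⟨W, her, hfact⟩ := factIN H.tmh ((kitN H p K₀).setW W₀ her₀) (kit_inj H p K₀) (K' := K')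
    (s₁ := s₁) (sh := sh) hK' hc hβ (cls_hP H) (cls_hD H) hlt hI' hsub
    (Qc := Qc) (X := XT Tl (fun u => u ≠ l₀ + 1 ∧ u ≠ l₁ + 1) (max K' K₂) 1)
    (PB := fun B => B = n + 2)
    (h₁ := h) ⟨1, one_pos, fun q hq => hQ q 1 K₀ hq⟩
    (fun _ _ _ _ _ _ _ _ _ => inferInstanceAs (Subsingleton Unit))
    (fun q N M θ J F D A h1 i hi j hj =>
      ((wBal.com (hWs₀ q N M θ J F D A h1).1.1) i hi j hj).2)
    (fun M' => grd_and (Kt := (kitN H p K₀).kit.setW W₁ her₁) (W := W₀) (her := her₀) hI'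
      (fun q N M θ J F D A h1 h2 => by
        rw [hW₀]
        exact ⟨h1, (kitN H p K₀).kit.wco_mono k4 s4 h2⟩)
      (grd_and (her := her₁) hI' (fun q N M θ J F D A h1 h2 => by
        rw [hW₁]
        exact ⟨h1, (kitN H p K₀).kit.wco_mono k3 s3 h2⟩) ((hgrd H hpI hβ M').sub hsub) (hV0 M'))
      ((hV1 M').mono fun N θ q h1 b e hb => by
        obtain ⟨C, hC, h2⟩ := h1 b e hb
        exact ⟨C, hC, Bas.mono 0 h2 fun J _ F A hA D hD =>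
          hA D ⟨hD.1, (hWs₁ q N M' θ J F D A hD.2).1⟩⟩))
    (fun k hk M' => (exn k hk M').mono fun N θ q h1 => h1.setW
      (fun J F D A h2 => (hWs₀ q N M' θ J F D A h2).1.1) fun _ _ _ _ _ _ h2 => h2)
    (fun W her hWs ok2 => by
      obtain ⟨C₃, hnf⟩ := nf_U hI' H.tmh.1 H.zc ((kitN H p K₀).kit.setW W her)
        (fun _ _ _ => rfl) (fun q => kit_inj H p K₀ q.k) (fun q => kit_cov H p K₀ q.k)
        (fun q => kit_rate H p K₀ q.k) (s₁ := s₁) (sh := sh) hK' hh hh1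
        (fun ε' hε' => kit_row H K₀ hrow ε' hε') fcel
        (fun k hk M' => (exs k hk M').mono fun N θ q h1 => h1.setW
          (fun J F D A h2 => (hWs₀ q N M' θ J F D A (hWs q N M' θ J F D A h2)).1.1)
          fun _ _ _ _ _ _ h2 => h2) ok2
      refine ⟨⟨C₃, fun C₁ hC₁ => ⟨n + 2, by omega, rfl, fun M' => hnf C₁ hC₁ (n + 2)
        (by have := hn; omega) M'⟩⟩, ?_⟩
      refine ext_T hI' ((kitN H p K₀).kit.setW W her) (fun q => kit_inj H p K₀ q.k) hml fcel hK'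
        (x := 1) (ext_C2 hI' H.tmh ((kitN H p K₀).kit.setW W her) hml fcel hK' (K₂ := K₂)
        (S₂ := S₂) h01 hl₁
        (fun q N M θ J F D A h1 => (hWs₀ q N M θ J F D A (hWs q N M θ J F D A h1)).1.2)
        (fun q N M θ J F D A h1 => (hWs₀ q N M θ J F D A (hWs q N M θ J F D A h1)).2)
        (be := fun q => P' (show Od n from q.k.2).2)
        (P := fun q => PW (show Od n from q.k.2).2) (fun q => hPW _)
        (fun q l hl _ _ a w h0 h1 h2 => kit_Lp H q hl a w h0 h1 h2)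
        (kit_gain H K₀ hcon0) (kit_gain H K₀ hcon1)
        (fun l hl h1 h2 => kit_rgh H K₀ hPW (hrgh l hl h1 h2)) ?_) ?_ ?_
      · exact ⟨0, fun C₁ hC₁ B _ _ M' => ⟨0, fun N _ => ⟨1, one_pos, fun θ _ _ => EvP.of fun q =>
          (fld_nfc1 ((kitN H p K₀).kit.setW W her) hC₁ B M' N θ q).mono
            fun _ _ _ _ _ _ h1 gam' _ _ => h1 gam'⟩⟩⟩
      · exact ⟨C₄, fun C₁ hC₁ M' K'' κ hκ => (hnft C₁ hC₁ M' K'' κ hκ).mono fun N θ q h2 =>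
          h2.setW (fun J F D A h3 => (hWs₀ q N M' θ J F D A (hWs q N M' θ J F D A h3)).1.1)
            fun _ _ _ _ _ _ h3 => h3⟩
      · exact ⟨C₅, fun C₁ hC₁ M' K'' κ hκ => (hnsl C₁ hC₁ M' K'' κ hκ).mono fun N θ q h2 =>
          h2.setW (fun J F D A h3 => (hWs₀ q N M' θ J F D A (hWs q N M' θ J F D A h3)).1.1)
            fun _ _ _ _ _ _ h3 => h3⟩)
  exact evX_false hI' (xT_mono Tl _ (max K' K₂) 1) H.ne H.tmh.1 _ hh1 hQc
    ((hP (max K' K₂)).monoK (le_max_left _ _)) hfact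

end Pool.PKG
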