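import Pool.Agent.H78.TT.KdB
import Pool.Agent.H78.MIC.BsA

/-!
# Kinds of boxes and subclasses

A subclass `S'` of a class `S` with the same numbers: the windows, the exactness, full entropy modulo
the directions and the absence of slabs pass to `S'`, the kinds of boxes are the same.
-/

set_option autoImplicit false

namespace Pool.PKG

open MeasureTheory Set Filter Topology
open Pool.Agent.H49.Ent Pool.Agent.H32.Dense Pool.STK Pool.KA Pool.KSAT Pool.K2S Pool.PB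
open Pool.GEN Pool.S6C Pool.STAT Pool.CHT Pool.GRW Pool.ONE Pool.STA
open Pool.LBT (LSys ThrOf)
open Pool.LEV (Law Lv)
open Pool.ALL (RateOf)
open Pool.TOP (TopS)
open Pool.RTS (iso Diag)
open Pool.STR (NumI CellD RowD NfB AffB Rle Nw)
open Pool.CHB (chsysB)
open Pool.STAT.CLO Pool.MIC6
open Pool.P4 (NFc1)

variable {n : ℕ} {hn : 2 ≤ n} {S S' : PCl n} {P : ℝ → ℝ → ℝ} {rr : ℝ → ℝ}
  {P' : ℕ → List (Fin n) × Fin n → ℝ → ℝ → ℝ} {Λ : Finset (Fin n) → Fin n → ℝ → ℝ → ℝ}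
  {PB : ℕ → List (Fin n) × Fin n → ℝ → ℝ → ℝ}

/-- **A subclass.** -/
def SubS (S' S : PCl n) : Prop :=
  ∀ (τ : ℝ) (J : ℕ) (F : Fam n J) (A : F.Ω → Prop), S'.St τ J F A → S.St τ J F A

theorem AdI.subS {c : ℝ} {o : Od n} {g ρ : ℝ} (hs : SubS S' S) (h : AdI hn S P P' c o g ρ) :
    AdI hn S' P P' c o g ρ := by
  obtain ⟨sg, h⟩ := h
  refine ⟨sg, { h with tg := fun w hw h0 h1 ε hε => ?_ }⟩
  obtain ⟨K', K₁, hK, hb⟩ := h.tg w hw h0 h1 ε hε
  exact ⟨K', K₁, hK, hb.sub hs⟩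

/-- Fields of a subclass. -/
theorem fldN_subS {Θ : Type*} {n₀ : ℕ} {Kt : KitP n Θ n₀} {K' s₁ : ℕ} {sh : ℕ → ℕ} {M N : ℕ}
    {θ : ℝ} {p : Θ} {Φ : RW n → FldT n} (hs : SubS S' S) (h : Kt.FldN S K' s₁ sh M N θ p Φ) :
    Kt.FldN S' K' s₁ sh M N θ p Φ := fun b e hb => (h b e hb).sub hs

variable (H : PkT hn S P rr P' Λ PB) (H' : PkT hn S' P rr P' Λ PB) {hTop : TopS n}
  {hF : FZX (n - 1)} {h : ℝ} {ρ' : ℝ → ℝ} {hρ : Rle rr ρ'}

/-- The parameters of a package as parameters of the package of a subclass. -/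
abbrev parS (p : ((H.nk hTop hF).chg hρ H.up).Par) : ((H'.nk hTop hF).chg hρ H'.up).Par := p

variable {H H'} in
theorem AdP.subS (hs : SubS S' S) {p : ((H.nk hTop hF).chg hρ H.up).Par} (h : AdP H p) :
    AdP H' (parS H H' p) := fun c k Q g ρ hk => (h c k Q g ρ hk).subS hs

variable {H H'} in
theorem ExnI.subS (hs : SubS S' S) {p : ((H.nk hTop hF).chg hρ H.up).Par}
    {I : ℝ → BS p.cell → Prop} (h : ExnI H p I) : ExnI H' (parS H H' p) I :=
  fun K K' s₁ sh hK hK' k hk M' =>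
    (h K K' s₁ sh hK hK' k hk M').mono fun _ _ _ h => fldN_subS hs h

variable {H H'} in
theorem ExsI.subS (hs : SubS S' S) {p : ((H.nk hTop hF).chg hρ H.up).Par}
    {I : ℝ → BS p.cell → Prop} (h : ExsI H p I) : ExsI H' (parS H H' p) I :=
  fun K K' s₁ sh hK hK' k hk M' =>
    (h K K' s₁ sh hK hK' k hk M').mono fun _ _ _ h => fldN_subS hs h

variable {H H'} in
theorem NftI.subS (hs : SubS S' S) {p : ((H.nk hTop hF).chg hρ H.up).Par} {Tl : ℕ → Prop}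
    {I : ℝ → BS p.cell → Prop} (h : NftI H p Tl I) : NftI H' (parS H H' p) Tl I := by
  intro K K' s₁ sh hK hK'
  obtain ⟨C₄, h1⟩ := h K K' s₁ sh hK hK'
  exact ⟨C₄, fun C₁ hC₁ M' K'' κ hκ =>
    (h1 C₁ hC₁ M' K'' κ hκ).mono fun _ _ _ h => fldN_subS hs h⟩

variable {H H'} in
theorem NslI.subS (hs : SubS S' S) {p : ((H.nk hTop hF).chg hρ H.up).Par}
    {I : ℝ → BS p.cell → Prop} (h : NslI H p I) : NslI H' (parS H H' p) I := by
  intro K K' s₁ sh hK hK'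
  obtain ⟨C₄, h1⟩ := h K K' s₁ sh hK hK'
  exact ⟨C₄, fun C₁ hC₁ M' K'' κ hκ =>
    (h1 C₁ hC₁ M' K'' κ hκ).mono fun _ _ _ h => fldN_subS hs h⟩

theorem GnW.subS {o : Od n} {D l : ℕ} {g r : ℝ} (hs : SubS S' S)
    (h : GnW hn S P P' o D l g r) : GnW hn S' P P' o D l g r := by
  obtain ⟨aT, wT, eT, β, K₁, h1, h2, h3⟩ := h
  exact ⟨aT, wT, eT, β, K₁, h1, h2, h3.sub hs⟩

variable {H} in
include H' in
/-- **No boxes with ties, one coordinate has labels with gain**, by (T); the thresholds over the boxes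
with the natural sides exist in a subclass. -/
theorem nok_TS {PW : ℕ → List (Fin n) × Fin n → ℝ → ℝ → ℝ} (hs : SubS S' S)
    (hPW : ∀ j, ThrOf (chsysB n none (P' j)) S' (PW j)) (hT : MicTStmt TopF)
    (hn4 : n ≤ 4) (hh : 0 < h) (hh1 : h ≤ 1) :
    NoKd H (kpB H hTop hF hρ h PW) (fun x => HypT H x.2) := by
  rintro p hp κ kd y ⟨l₀, T⟩ c β h₁ M hc hβ hK hy
  have hI' := isK_mono p.cell kd c β h₁ M y
  refine cls_TB H' (Qc := QTs TopF (TlS T) (min c β) (n - 1 + 1))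
    (qTs_cl (by omega) (topF_cl (by omega)) _ _) l₀.2
    (fun K' => (micX_T hT (by omega) hh hh1 (lt_min hc hβ) K' 1 (TlS T) _).mono
      (fun _ _ h => h) (fun _ _ h => h) fun _ _ => trivial) hh hh1 (hp.subS hs) (hy.1.subS hs)
    (hy.2.1.subS hs) (hy.2.2.1.subS hs) (hy.2.2.2.subS hs) hc hβ (fun q ε K₀ hq => ?_)
    (fun ε' hε' => (hK.Φ ε' hε').mono fun q h1 => h1.row)
    (fun ε q hq => (hK.A ε q hq).2.1) hPW
    (fun l hl hl' ε' hε' => (hK.Φ ε' hε').mono fun q h1 => h1.rgh l hl hl')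
    (fun ε' hε' => (hK.Φ ε' hε').mono fun q h1 => h1.con) (DT := ⌊1 / c⌋₊)
    (((hK.Φ 1 one_pos).and hI' (EvP.self _ one_pos)).mono fun q h1 =>
      (h1.1.gnw.mono ?_).subS hs)
  · obtain ⟨-, e2⟩ := gamS_tar H hq hβ K₀
    exact slA_qT hn4 hβ (hK.A ε q hq).1 e2 fun l l1 l2 => gamS_kit H hq K₀ l1 l2
  · have h2 := (hK.A _ q h1.2).2.2
    refine Nat.le_floor ?_
    rw [le_div_iff₀ hc]
    exact h2

/-- **The thresholds over the boxes with the natural sides**, in a subclass. -/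
theorem PkT.subW' (H : PkT hn S P rr P' Λ PB) :
    ∃ (S' : PCl n) (PW : ℕ → List (Fin n) × Fin n → ℝ → ℝ → ℝ), SubS S' S ∧
      PkT hn S' P rr P' Λ PB ∧ ∀ j, ThrOf (chsysB n none (P' j)) S' (PW j) := by
  obtain ⟨S', PW, h1, h2, h3, -, -⟩ := Pool.CHB.thr_le_tgs H.ne (κ := ℕ) (fun _ => none) P'
  obtain ⟨al, g₀, s, d, e, K₀, N, hal, hg₀, hC⟩ := H.cl
  exact ⟨S', PW, h2, {
    cl := ⟨al, g₀, s, d, e, K₀, N, hal, hg₀, hC.sub h1 h2⟩
    tgs := H.tgs.sub h2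
    rate := H.rate.sub h2
    cht := fun j => (H.cht j).sub h2
    reg := H.reg
    lam := H.lam.sub h2
    thb := fun j => (H.thb j).sub h2
    regb := H.regb }, h3⟩

end Pool.PKG
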