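import Pool.Agent.H78.TT.NobT
import Pool.Agent.H78.TT.SubT
import Pool.Agent.H89.NSL.Hyp

/-!
# No boxes with ties at the top speed

`OneG`: all coordinates of the base are thin or static, at most one is not thin. `noB_T`: there are no
boxes at such windows with the facts, where no coordinate is faster than the target and one is tied.
-/

set_option autoImplicit false

namespace Pool.PKG

open MeasureTheory Set Filter Topology
open Pool.Agent.H49.Ent Pool.Agent.H32.Dense Pool.STK Pool.KA Pool.KSAT Pool.K2S Pool.PB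
open Pool.GEN Pool.S6C Pool.STAT Pool.CHT Pool.GRW Pool.ONE Pool.STA
open Pool.LBT (LSys ThrOf)
open Pool.LEV (Law Lv)
open Pool.ALL (RateOf)
open Pool.TOP (TopS)
open Pool.RTS (iso Diag)
open Pool.STR (NumI CellD RowD NfB AffB Rle Nw ThinAt SteepAt StaAt)
open Pool.CHB (chsysB)
open Pool.STAT.CLO Pool.MIC6
open Pool.P4 (NFc1)
open Pool.ASM (TopA)

variable {n : ℕ} {hn : 2 ≤ n} {S : PCl n} {P : ℝ → ℝ → ℝ} {rr : ℝ → ℝ}
  {P' : ℕ → List (Fin n) × Fin n → ℝ → ℝ → ℝ} {Λ : Finset (Fin n) → Fin n → ℝ → ℝ → ℝ}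
  {PB : ℕ → List (Fin n) × Fin n → ℝ → ℝ → ℝ}
  {H : PkT hn S P rr P' Λ PB} {hTop : TopS n} {hF : FZX (n - 1)}
  {ρ' : ℝ → ℝ} {hρ : Rle rr ρ'} {h : ℝ}

/-- **All coordinates of the base are thin or static, at most one is not thin.** -/
def OneG (hn : 2 ≤ n) (P : ℝ → ℝ → ℝ) (P' PB : ℕ → List (Fin n) × Fin n → ℝ → ℝ → ℝ) (o : Od n)
    (g : ℝ) : Prop :=
  (∀ l < n - 1, ThS hn P P' PB o l g) ∧
    ∃ l₀ < n - 1, ∀ l < n - 1, l ≠ l₀ → ThN hn P P' PB o l g

/-- **No boxes with ties at the top speed**, all coordinates are thin, from (T) and the facts. -/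
theorem noB_TA (hT : MicTStmt TopF) (hn4 : n ≤ 4) (hFk : ∀ k, 1 ≤ k → k < n → FZX k)
    (hh : 0 < h) (hh1 : h ≤ 1) {X : Od n → ℝ → Prop} (hE : ExY H hTop hF hρ h X) :
    NoB H hTop hF hρ h fun o g => (ThW hn P P' PB o g ∧ SlLe hn P P' o g ∧ TiW hn P P' o g ∧
      ∀ l < n - 1, ThN hn P P' PB o l g) ∧ X o g := by
  obtain ⟨ι, f, K, h1, h2⟩ := hE
  refine noB_of (K := (kpA H hTop hF hρ h (SlA hn P P')).and K) ((nok_TF hT hn4 hh hh1).and K)
    (hasT hn4 hFk hh hh1 (K₁ := kpA H hTop hF hρ h (SlA hn P P')) id (fun _ _ _ _ h => h.1)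
      (fun _ _ _ _ _ h => h.row) h1)
    (CovK.and (fun o => ?_) h2)
  filter_upwards [one_zero H hTop hF o,
    H.rgh_ae hTop hF (be := fun j => bi P' j) (PW := PB) H.thb] with g k0 krB R hrw hX
  obtain ⟨hT, hle, hti, hth⟩ := hX
  have ho := R.mem
  have h6 : slN hn P P' o 0 g = 1 := by
    rw [slN_lvl o (by omega)]
    exact k0 ho
  obtain ⟨T, hT'⟩ := slA_at h6 hT.1 hle hti
  exact ⟨T, kpA_at hT' hrw fun l hl => krB o ho l hl.le (hth l hl)⟩

/-- **No boxes with ties at the top speed**, one coordinate is static, from (T) and the facts. -/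
theorem noB_TB (hT : MicTStmt TopF) (hn4 : n ≤ 4) (hFk : ∀ k, 1 ≤ k → k < n → FZX k)
    (hh : 0 < h) (hh1 : h ≤ 1) {X : Od n → ℝ → Prop} (hE : ExY H hTop hF hρ h X) :
    NoB H hTop hF hρ h fun o g => (ThW hn P P' PB o g ∧ SlLe hn P P' o g ∧ TiW hn P P' o g ∧
      OneG hn P P' PB o g ∧ ¬ ∀ l < n - 1, ThN hn P P' PB o l g) ∧ X o g := by
  obtain ⟨ι, f, K, h1, h2⟩ := hE
  obtain ⟨S', PW, hs, H', hPW⟩ := H.subW'
  refine noB_of (K := (kpB H hTop hF hρ h PW).and K) ((nok_TS H' hs hPW hT hn4 hh hh1).and K)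
    (hasT hn4 hFk hh hh1 (K₁ := kpB H hTop hF hρ h PW) (fun x => x.2) (fun _ _ _ _ h => h.1.1)
      (fun _ _ _ _ _ h => h.row) h1)
    (CovK.and (fun o => ?_) h2)
  filter_upwards [slo_two H hTop hF, one_zero H hTop hF o, H'.rgh_ae hTop hF hPW,
      H.gnW_ae hTop hF, H.dia_all H.pble hTop hF]
      with g ktwo k0 krW kgn kdia R hrw hX
  obtain ⟨hT, hle, hti, ⟨hths, l₀, hl₀, hth⟩, hnth⟩ := hX
  have ho := R.mem
  have hth₀ : ¬ ThN hn P P' PB o l₀ g := fun h3 => hnth fun l hl => by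
    by_cases h4 : l = l₀
    · rwa [h4]
    · exact hth l hl h4
  obtain ⟨hsta, h3⟩ := ktwo o ho l₀ hl₀ (fun k hk => hths k (hk.trans hl₀)) (hths l₀ hl₀) hth₀
  have h6 : slN hn P P' o 0 g = 1 := by
    rw [slN_lvl o (by omega)]
    exact k0 ho
  obtain ⟨T, hT'⟩ := slA_at h6 hT.1 hle hti
  have hrgh : ∀ l ≤ n - 1, l ≠ l₀ → Sml fun r d => Box7 g r fun a w =>
      bet (PW o.2) (cc hn o.1.1) l a w ≤ dgN hn P P' o l w + (a - w) + d := fun l hl hll => by
    refine krW o ho l hl ?_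
    rcases hl.lt_or_eq with h6 | rfl
    · exact hth l h6 hll
    · have eL : LvL hn P P' o (n - 1) = P := by
        funext a w
        exact LvL_top o a w
      rw [eL, LvT_top]
      exact hT.2
  have hdif : DifferentiableAt ℝ (dgN hn P P' o l₀) g := by
    have h6 : dgN hn P P' o l₀ = fun a => LvL hn P P' o l₀ a a :=
      funext fun a => dgN_LvL o hl₀.le a
    rw [h6]
    exact (kdia o ho l₀ hl₀.le).1
  have hsta' : StaAt (bet (P' o.2) (cc hn o.1.1) l₀) g := by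
    have h6 : LvL hn P P' o l₀ = bet (P' o.2) (cc hn o.1.1) l₀ := by
      funext a w
      exact LvL_lt o hl₀ a w
    rwa [h6] at hsta
  have hcon := con_sml hl₀ hdif h3 hsta'
  have hgn := kgn o ho l₀ hl₀ (fun k hk => hth k (hk.trans hl₀) (by omega)) hsta h3
  exact ⟨(⟨l₀, hl₀⟩, T), kpB_at (l₀ := ⟨l₀, hl₀⟩) hT' (srt_gs H.toPk hTop hF ho) hrw hrgh hcon
    hgn⟩

/-- **No boxes with ties at the top speed**: all coordinates of the base are thin or static, at most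
one is not thin, from (T) and the facts. -/
theorem noB_T (hT : MicTStmt TopF) (hn4 : n ≤ 4) (hFk : ∀ k, 1 ≤ k → k < n → FZX k)
    (hh : 0 < h) (hh1 : h ≤ 1) {X : Od n → ℝ → Prop} (hE : ExY H hTop hF hρ h X) :
    NoB H hTop hF hρ h fun o g => (ThW hn P P' PB o g ∧ SlLe hn P P' o g ∧ TiW hn P P' o g ∧
      OneG hn P P' PB o g) ∧ X o g := by
  refine ((noB_TA hT hn4 hFk hh hh1 hE).or (noB_TB hT hn4 hFk hh hh1 hE)).mono fun o =>
    Eventually.of_forall fun g _ hX => ?_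
  obtain ⟨⟨h1, h2, h3, h5⟩, h4⟩ := hX
  by_cases hth : ∀ l < n - 1, ThN hn P P' PB o l g
  · exact Or.inl ⟨⟨h1, h2, h3, hth⟩, h4⟩
  · exact Or.inr ⟨⟨h1, h2, h3, h5, hth⟩, h4⟩

end Pool.PKG
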