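import Pool.Agent.H78.TT.Vco
import Pool.Agent.H78.TT.NobU

/-!
# The windows with ties at the top speed where two coordinates of the base are static

`kpTC`: the windows where the coordinates `l₀ < l₁` have labels with gain, the others are rough.
`TwoG`: all coordinates of the base are thin or static, exactly `l₀` and `l₁` are not thin. `HasV`: the
labels with gain of the second coordinate on large events of the boxes.
-/

set_option autoImplicit false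

namespace Pool.PKG

open MeasureTheory Set Filter Topology
open Pool.Agent.H49.Ent Pool.Agent.H32.Dense Pool.STK Pool.KA Pool.KSAT Pool.K2S Pool.PB
open Pool.GEN Pool.S6C Pool.STAT Pool.CHT Pool.GRW Pool.ONE Pool.STA
open Pool.LBT (LSys ThrOf)
open Pool.LEV (Law Lv)
open Pool.ALL (RateOf)
open Pool.TOP (TopS)
open Pool.RTS (iso Diag)
open Pool.STR (NumI CellD RowD NfB AffB Rle Nw ThinAt SteepAt StaAt)
open Pool.CHB (chsysB)
open Pool.STAT.CLO Pool.MIC6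
open Pool.P4 (NFc1)
open Pool.ASM (TopA)

variable {n : ℕ} {hn : 2 ≤ n} {S S' : PCl n} {P : ℝ → ℝ → ℝ} {rr : ℝ → ℝ}
  {P' : ℕ → List (Fin n) × Fin n → ℝ → ℝ → ℝ} {Λ : Finset (Fin n) → Fin n → ℝ → ℝ → ℝ}
  {PB : ℕ → List (Fin n) × Fin n → ℝ → ℝ → ℝ}

/-- **The statements about the boxes** with two coordinates with gain. -/
structure KnTC (hn : 2 ≤ n) (S : PCl n) (P : ℝ → ℝ → ℝ) (rr : ℝ → ℝ)
    (P' PW : ℕ → List (Fin n) × Fin n → ℝ → ℝ → ℝ) (h : ℝ) (l₀ l₁ : ℕ) (o : Od n) (g r d : ℝ) :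
    Prop where
  row : NfB rr h d (P g g - r) (P g g + 3 * r)
  rgh : ∀ l ≤ n - 1, l ≠ l₀ → l ≠ l₁ → Box7 g r fun a w =>
    bet (PW o.2) (cc hn o.1.1) l a w ≤ dgN hn P P' o l w + (a - w) + d
  con0 : Box7 g r fun a w =>
    dgN hn P P' o l₀ w + 2 * (a - w) ≤ bet (P' o.2) (cc hn o.1.1) l₀ a w + d
  con1 : Box7 g r fun a w =>
    dgN hn P P' o l₁ w + 2 * (a - w) ≤ bet (P' o.2) (cc hn o.1.1) l₁ a w + d
  gnw : GnW hn S P P' o (DgC hn S P P' o l₀ g) l₀ g r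

theorem KnTC.mono {PW : ℕ → List (Fin n) × Fin n → ℝ → ℝ → ℝ} {h : ℝ} {l₀ l₁ : ℕ} {o : Od n}
    {g r d d' : ℝ} (hd : d ≤ d') (H : KnTC hn S P rr P' PW h l₀ l₁ o g r d) :
    KnTC hn S P rr P' PW h l₀ l₁ o g r d' :=
  ⟨nfB_mono H.row le_rfl hd le_rfl le_rfl,
    fun l hl hl' hl2 => (H.rgh l hl hl' hl2).mono fun _ _ h => h.trans (by linarith),
    H.con0.mono fun _ _ h => h.trans (by linarith),
    H.con1.mono fun _ _ h => h.trans (by linarith), H.gnw⟩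

variable (H : PkT hn S P rr P' Λ PB) {hTop : TopS n} {hF : FZX (n - 1)} {h : ℝ}
  {ρ' : ℝ → ℝ} {hρ : Rle rr ρ'}

/-- **The windows with ties, the coordinates `l₀ < l₁` have labels with gain**, the others are rough;
the index is the set of the tied coordinates. -/
noncomputable def kpTC (H : PkT hn S P rr P' Λ PB) (hTop : TopS n) (hF : FZX (n - 1))
    (hρ : Rle rr ρ') (h : ℝ) (PW : ℕ → List (Fin n) × Fin n → ℝ → ℝ → ℝ) (l₀ l₁ : ℕ) :
    NumI.KndP ((H.nk hTop hF).chg hρ H.up) (Finset (Fin n)) where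
  A c T o g := SlA hn P P' c T (show Od n from o) g ∧
    SrtN hn P P' (show Od n from o) g ∧
    (DgC hn S P P' (show Od n from o) l₀ g : ℝ) * c ≤ 1
  Φ _ o g r d := KnTC hn S P rr P' PW h l₀ l₁ (show Od n from o) g r d
  mono hd h := h.mono hd

variable {H}

/-- A window of this kind. -/
theorem kpTC_at {PW : ℕ → List (Fin n) × Fin n → ℝ → ℝ → ℝ} {o : Od n} {g : ℝ}
    {l₀ l₁ : ℕ} {T : Finset (Fin n)}
    (hA : ∃ c : ℝ, 0 < c ∧ ∀ c' : ℝ, 0 < c' → c' ≤ c → SlA hn P P' c' T o g)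
    (hsrt : SrtN hn P P' o g)
    (hrow : Sml fun r d => NfB rr h d (P g g - r) (P g g + 3 * r))
    (hrgh : ∀ l ≤ n - 1, l ≠ l₀ → l ≠ l₁ → Sml fun r d => Box7 g r fun a w =>
      bet (PW o.2) (cc hn o.1.1) l a w ≤ dgN hn P P' o l w + (a - w) + d)
    (hcon0 : Sml fun r d => Box7 g r fun a w =>
      dgN hn P P' o l₀ w + 2 * (a - w) ≤ bet (P' o.2) (cc hn o.1.1) l₀ a w + d)
    (hcon1 : Sml fun r d => Box7 g r fun a w =>
      dgN hn P P' o l₁ w + 2 * (a - w) ≤ bet (P' o.2) (cc hn o.1.1) l₁ a w + d)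
    (hgn : ∃ D : ℕ, ∃ r₀ : ℝ, 0 < r₀ ∧ ∀ r : ℝ, 0 < r → r < r₀ → GnW hn S P P' o D l₀ g r) :
    (kpTC H hTop hF hρ h PW l₀ l₁).At T (show ((H.nk hTop hF).chg hρ H.up).O from o) g := by
  obtain ⟨c, hc, hA⟩ := hA
  obtain ⟨Dd, hDd⟩ : ∃ Dd : ℝ, Dd = (DgC hn S P P' o l₀ g : ℝ) := ⟨_, rfl⟩
  have hD0 : 0 ≤ Dd := by rw [hDd]; exact Nat.cast_nonneg _
  refine ⟨min c (1 / (Dd + 1)), lt_min hc (by positivity), fun c' h1 h2 =>
    ⟨hA c' h1 (h2.trans (min_le_left _ _)), hsrt, ?_⟩, ?_⟩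
  · have h3 := h2.trans (min_le_right _ _)
    rw [le_div_iff₀ (by linarith)] at h3
    show (DgC hn S P P' o l₀ g : ℝ) * c' ≤ 1
    rw [← hDd]
    linarith
  · have k1 : Sml fun r d => ∀ l ∈ Finset.range (n - 1 + 1), l ≠ l₀ → l ≠ l₁ →
        Box7 g r fun a w =>
        bet (PW o.2) (cc hn o.1.1) l a w ≤ dgN hn P P' o l w + (a - w) + d :=
      Sml.all _ fun l hl => by
        by_cases hl' : l ≠ l₀ ∧ l ≠ l₁
        · exact (hrgh l (by have := Finset.mem_range.1 hl; omega) hl'.1 hl'.2).mono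
            fun _ _ _ h _ _ => h
        · exact fun _ _ => ⟨1, one_pos, fun _ _ _ h h' => absurd ⟨h, h'⟩ hl'⟩
    have k2 : Sml fun r _ => GnW hn S P P' o (DgC hn S P P' o l₀ g) l₀ g r := by
      intro e he
      obtain ⟨r₀, h1, h2⟩ := dgC_spec hgn
      exact ⟨r₀, h1, h2⟩
    exact ((hrow.and k1).and ((hcon0.and hcon1).and k2)).mono fun r d _ h => ⟨h.1.1,
      fun l hl hl' hl2 => h.1.2 l (Finset.mem_range.2 (by omega)) hl' hl2, h.2.1.1, h.2.1.2,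
      h.2.2⟩

/-- **All coordinates of the base are thin or static, exactly `l₀` and `l₁` are not thin.** -/
def TwoG (hn : 2 ≤ n) (P : ℝ → ℝ → ℝ) (P' PB : ℕ → List (Fin n) × Fin n → ℝ → ℝ → ℝ)
    (l₀ l₁ : ℕ) (o : Od n) (g : ℝ) : Prop :=
  (∀ l < n - 1, ThS hn P P' PB o l g) ∧ ¬ ThN hn P P' PB o l₀ g ∧ ¬ ThN hn P P' PB o l₁ g ∧
    ∀ l < n - 1, l ≠ l₀ → l ≠ l₁ → ThN hn P P' PB o l g

/-- If the first coordinate is thin and `n ≤ 4`, then the base is `OneG` or `TwoG`. -/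
theorem twoG_of (hn4 : n ≤ 4) {o : Od n} {g : ℝ} (h0 : ThN hn P P' PB o 0 g)
    (hths : ∀ l < n - 1, ThS hn P P' PB o l g) (h1 : ¬ OneG hn P P' PB o g) :
    n = 4 ∧ TwoG hn P P' PB 1 2 o g := by
  have h2 : n = 4 ∧ ¬ ThN hn P P' PB o 1 g ∧ ¬ ThN hn P P' PB o 2 g := by
    by_contra hc
    refine h1 ⟨hths, ?_⟩
    by_cases h3 : 3 ≤ n
    swap
    · exact ⟨0, by omega, fun l hl hl0 => by omega⟩
    by_cases h4 : ThN hn P P' PB o 1 g
    · by_cases h5 : n = 4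
      · refine ⟨2, by omega, fun l hl hl0 => ?_⟩
        rcases (by omega : l = 0 ∨ l = 1) with rfl | rfl
        · exact h0
        · exact h4
      · refine ⟨1, by omega, fun l hl hl0 => ?_⟩
        rcases (by omega : l = 0) with rfl
        exact h0
    · refine ⟨1, by omega, fun l hl hl0 => ?_⟩
      rcases (by omega : l = 0 ∨ l = 2) with rfl | rfl
      · exact h0
      · by_contra h5
        exact hc ⟨by omega, h4, h5⟩
  obtain ⟨rfl, h3, h4⟩ := h2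
  refine ⟨rfl, hths, h3, h4, fun l hl l1 l2 => ?_⟩
  obtain rfl : l = 0 := by omega
  exact h0

variable (H) in
/-- **The labels with gain of the coordinate `l₁`**, for the windows `X`, in all subclasses with
thresholds over the boxes with the natural sides. -/
def HasV (hTop : TopS n) (hF : FZX (n - 1)) (hρ : Rle rr ρ') (h : ℝ) (l₀ l₁ : ℕ)
    (X : Od n → ℝ → Prop) : Prop :=
  ∀ (S' : PCl n) (PW : ℕ → List (Fin n) × Fin n → ℝ → ℝ → ℝ), SubS S' S →
    ∀ H' : PkT hn S' P rr P' Λ PB, (∀ j, ThrOf (chsysB n none (P' j)) S' (PW j)) →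
      ∃ (ι : Type) (_ : Finite ι) (K : NumI.KndP ((H.nk hTop hF).chg hρ H.up) ι),
        HasK H ((kpTC H hTop hF hρ h PW l₀ l₁).and K)
          (fun _ p I => VcoI H' (parS H H' p) l₁ I) ∧ CovK K h X

end Pool.PKG
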