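import Pool.Agent.H78.TT.KdC
import Pool.Agent.H78.TT.KpC

/-!
# No boxes with ties at the top speed, two coordinates of the base are static

`nok_TC`: no boxes of the kind `kpTC`, by (T), if there are labels with gain of the second coordinate
on large events of the boxes (`VcoI`; for the first coordinate this is proved). `noB_TC`: no boxes at
the windows `TwoG`.
-/

set_option autoImplicit false

namespace Pool.PKG

open MeasureTheory Set Filter Topology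
open Pool.Agent.H49.Ent Pool.Agent.H32.Dense Pool.STK Pool.KA Pool.KSAT Pool.K2S Pool.PB
open Pool.GEN Pool.S6C Pool.STAT Pool.CHT Pool.GRW Pool.ONE Pool.STA
open Pool.LBT (LSys ThrOf)
open Pool.LEV (Law Lv)
open Pool.ALL (RateOf)
open Pool.TOP (TopS)
open Pool.RTS (iso Diag)
open Pool.STR (NumI CellD RowD NfB AffB Rle Nw ThinAt SteepAt StaAt)
open Pool.CHB (chsysB)
open Pool.STAT.CLO Pool.MIC6
open Pool.P4 (NFc1)
open Pool.ASM (TopA)

variable {n : ℕ} {hn : 2 ≤ n} {S S' : PCl n} {P : ℝ → ℝ → ℝ} {rr : ℝ → ℝ}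
  {P' : ℕ → List (Fin n) × Fin n → ℝ → ℝ → ℝ} {Λ : Finset (Fin n) → Fin n → ℝ → ℝ → ℝ}
  {PB : ℕ → List (Fin n) × Fin n → ℝ → ℝ → ℝ}

variable {H : PkT hn S P rr P' Λ PB} {hTop : TopS n} {hF : FZX (n - 1)} {h : ℝ}
  {ρ' : ℝ → ℝ} {hρ : Rle rr ρ'}

/-- **The hypotheses for two coordinates with gain**: those of (T), and the labels with gain of the
second coordinate, in a subclass. -/
def HypTC (H : PkT hn S P rr P' Λ PB) (H' : PkT hn S' P rr P' Λ PB) (l₁ : ℕ) :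
    HypK (hTop := hTop) (hF := hF) (hρ := hρ) H (Finset (Fin n)) :=
  fun T p I => HypT H T p I ∧ VcoI H' (parS H H' p) l₁ I

/-- **No boxes with ties, two coordinates have labels with gain**, by (T); the thresholds over the
boxes with the natural sides exist in a subclass. -/
theorem nok_TC (H' : PkT hn S' P rr P' Λ PB) {PW : ℕ → List (Fin n) × Fin n → ℝ → ℝ → ℝ}
    (hs : SubS S' S) (hPW : ∀ j, ThrOf (chsysB n none (P' j)) S' (PW j)) (hT : MicTStmt TopF)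
    (hn4 : n ≤ 4) (hh : 0 < h) (hh1 : h ≤ 1) {l₀ l₁ : ℕ} (h01 : l₀ < l₁) (hl₁ : l₁ < n - 1) :
    NoKd H (kpTC H hTop hF hρ h PW l₀ l₁) (HypTC H H' l₁) := by
  rintro p hp κ kd y T c β h₁ M hc hβ hK ⟨hy, hV⟩
  have hI' := isK_mono p.cell kd c β h₁ M y
  refine cls_TC H' (Qc := QTs TopF (TlS T) (min c β) (n - 1 + 1))
    (qTs_cl (by omega) (topF_cl (by omega)) _ _) (l₀ := l₀) (l₁ := l₁) h01 hl₁
    (fun K' => (micX_T hT (by omega) hh hh1 (lt_min hc hβ) K' 1 (TlS T) _).mono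
      (fun _ _ h => h) (fun _ _ h => h) fun _ _ => trivial) hh hh1 (hp.subS hs) (hy.1.subS hs)
    (hy.2.1.subS hs) (hy.2.2.1.subS hs) (hy.2.2.2.subS hs)
    (vcoI_con H' (hp.subS hs) hc hβ (fun ε q hq => (hK.A ε q hq).2.1) hPW (h01.trans hl₁)
      (fun l hl ε' hε' => (hK.Φ ε' hε').mono fun q h1 => h1.rgh l (by omega) hl.ne
        (hl.trans h01).ne) (DT := ⌊1 / c⌋₊)
      (((hK.Φ 1 one_pos).and hI' (EvP.self _ one_pos)).mono fun q h1 =>
        (h1.1.gnw.mono ?_).subS hs)) hV hc hβ (fun q ε K₀ hq => ?_)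
    (fun ε' hε' => (hK.Φ ε' hε').mono fun q h1 => h1.row) hPW
    (fun l hl hl' hl2 ε' hε' => (hK.Φ ε' hε').mono fun q h1 => h1.rgh l hl hl' hl2)
    (fun ε' hε' => (hK.Φ ε' hε').mono fun q h1 => h1.con0)
    (fun ε' hε' => (hK.Φ ε' hε').mono fun q h1 => h1.con1)
  · have h2 := (hK.A _ q h1.2).2.2
    refine Nat.le_floor ?_
    rw [le_div_iff₀ hc]
    exact h2
  · obtain ⟨-, e2⟩ := gamS_tar H hq hβ K₀
    exact slA_qT hn4 hβ (hK.A ε q hq).1 e2 fun l l1 l2 => gamS_kit H hq K₀ l1 l2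

/-- **No boxes with ties at the top speed**, two coordinates of the base are static, from (T), the
facts and the labels with gain of the second coordinate. -/
theorem noB_TC (hT : MicTStmt TopF) (hn4 : n ≤ 4) (hFk : ∀ k, 1 ≤ k → k < n → FZX k)
    (hh : 0 < h) (hh1 : h ≤ 1) {l₀ l₁ : ℕ} (h01 : l₀ < l₁) (hl₁ : l₁ < n - 1)
    {X Y : Od n → ℝ → Prop} (hE : ExY H hTop hF hρ h X)
    (hV : HasV H hTop hF hρ h l₀ l₁ Y) :
    NoB H hTop hF hρ h fun o g => (ThW hn P P' PB o g ∧ SlLe hn P P' o g ∧ TiW hn P P' o g ∧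
      TwoG hn P P' PB l₀ l₁ o g) ∧ X o g ∧ Y o g := by
  obtain ⟨ι, f, K, h1, h2⟩ := hE
  obtain ⟨S', PW, hs, H', hPW⟩ := H.subW'
  obtain ⟨ι', f', K', h1', h2'⟩ := hV S' PW hs H' hPW
  have a1 : HasK H ((kpTC H hTop hF hρ h PW l₀ l₁).and K) fun x => HypT H x.1 :=
    hasT hn4 hFk hh hh1 (K₁ := kpTC H hTop hF hρ h PW l₀ l₁) id (fun _ _ _ _ h => h.1.1)
      (fun _ _ _ _ _ h => h.row) h1
  have hl₀ : l₀ < n - 1 := h01.trans hl₁
  refine noB_of (K := (kpTC H hTop hF hρ h PW l₀ l₁).and (K.and K'))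
    ((nok_TC (H := H) H' hs hPW hT hn4 hh hh1 h01 hl₁).and (K.and K'))
    (fun p hp _ kd x' x c β h₁ M hc hβ hK => ⟨?_, ?_⟩)
    (CovK.and (fun o => ?_) (CovK.and h2 h2'))
  · exact a1 p hp kd x' (x.1, x.2.1) c β h₁ M hc hβ
      ⟨fun ε q hq => ⟨(hK.A ε q hq).1, (hK.A ε q hq).2.1⟩,
        fun ε' hε' => (hK.Φ ε' hε').mono fun _ h => ⟨h.1, h.2.1⟩⟩
  · exact h1' p hp kd x' (x.1, x.2.2) c β h₁ M hc hβ
      ⟨fun ε q hq => ⟨(hK.A ε q hq).1, (hK.A ε q hq).2.2⟩,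
        fun ε' hε' => (hK.Φ ε' hε').mono fun _ h => ⟨h.1, h.2.2⟩⟩
  filter_upwards [slo_two H hTop hF, one_zero H hTop hF o, H'.rgh_ae hTop hF hPW,
      H.gnW_ae hTop hF, H.dia_all H.pble hTop hF]
      with g ktwo k0 krW kgn kdia R hrw hX
  obtain ⟨hT, hle, hti, hths, hn0, hn1, hth⟩ := hX
  have ho := R.mem
  obtain ⟨hsta0, h30⟩ := ktwo o ho l₀ hl₀ (fun k hk => hths k (hk.trans hl₀)) (hths l₀ hl₀) hn0
  obtain ⟨hsta1, h31⟩ := ktwo o ho l₁ hl₁ (fun k hk => hths k (hk.trans hl₁)) (hths l₁ hl₁) hn1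
  have h6 : slN hn P P' o 0 g = 1 := by
    rw [slN_lvl o (by omega)]
    exact k0 ho
  obtain ⟨T, hT'⟩ := slA_at h6 hT.1 hle hti
  have hrgh : ∀ l ≤ n - 1, l ≠ l₀ → l ≠ l₁ → Sml fun r d => Box7 g r fun a w =>
      bet (PW o.2) (cc hn o.1.1) l a w ≤ dgN hn P P' o l w + (a - w) + d :=
    fun l hl hll hl2 => by
      refine krW o ho l hl ?_
      rcases hl.lt_or_eq with h6 | rfl
      · exact hth l h6 hll hl2
      · have eL : LvL hn P P' o (n - 1) = P := by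
          funext a w
          exact LvL_top o a w
        rw [eL, LvT_top]
        exact hT.2
  have hdif : ∀ l < n - 1, DifferentiableAt ℝ (dgN hn P P' o l) g := fun l hl => by
    have h6 : dgN hn P P' o l = fun a => LvL hn P P' o l a a :=
      funext fun a => dgN_LvL o hl.le a
    rw [h6]
    exact (kdia o ho l hl.le).1
  have hsta' : ∀ l < n - 1, StaAt (LvL hn P P' o l) g →
      StaAt (bet (P' o.2) (cc hn o.1.1) l) g := fun l hl hst => by
    have h6 : LvL hn P P' o l = bet (P' o.2) (cc hn o.1.1) l := by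
      funext a w
      exact LvL_lt o hl a w
    rwa [h6] at hst
  have hcon0 := con_sml hl₀ (hdif l₀ hl₀) h30 (hsta' l₀ hl₀ hsta0)
  have hcon1 := con_sml hl₁ (hdif l₁ hl₁) h31 (hsta' l₁ hl₁ hsta1)
  have hgn := kgn o ho l₀ hl₀ (fun k hk => hth k (hk.trans hl₀) hk.ne (hk.trans h01).ne) hsta0 h30
  exact ⟨T, kpTC_at hT' (srt_gs H.toPk hTop hF ho) hrw hrgh hcon0 hcon1 hgn⟩

end Pool.PKG
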