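import Pool.Agent.H78.TT.NobU
import Pool.Agent.H56.ASM.Xy

/-!
# The ties at the top speed

`LTaYX X n`: the windows `ExWX X` with ties which are covered by (T). `lExW_ths`: for the extremal
rows all coordinates of the base are thin or static at the windows `ExWX X`. `LTbYX X n`: no boxes at
the windows which are not covered by (T). `lTq1YX_T`: `LTq1YX X n` from (T) and `LTbYX X n`;
`lTq1YX_three`: `LTq1YX X 3` from (T).
-/

set_option autoImplicit false

namespace Pool.ASM

open MeasureTheory Set Filter Topology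
open Pool.Agent.H49.Ent Pool.Agent.H32.Dense Pool.STK Pool.KA Pool.KSAT Pool.K2S Pool.PB
open Pool.GEN Pool.S6C Pool.GRW Pool.PKG Pool.STAT Pool.PM Pool.R1 Pool.Z4
open Pool.ONE (LocE Ext0 Ext rowN_of_ext)
open Pool.TOP (TopS rw_all)
open Pool.STR (NumI TopW Mac StaAt IsoAt StaU1 ThinAt SteepAt Rle)
open Pool.MIC6
open Pool.SW (TopC NtO OneS NoTie Rgh Xa TieO)

section

variable {n : ℕ} {hn : 2 ≤ n} {S : PCl n} {P : ℝ → ℝ → ℝ} {r : ℝ → ℝ}
  {P' : ℕ → List (Fin n) × Fin n → ℝ → ℝ → ℝ} {Λ : Finset (Fin n) → Fin n → ℝ → ℝ → ℝ}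
  {PB : ℕ → List (Fin n) × Fin n → ℝ → ℝ → ℝ}

/-- At the windows `ExWX X` there is only one contact coordinate. -/
theorem exWX_cell {X : WinC} {h : ℝ} (H : PkT hn S P r P' Λ PB) (hTop : TopS n)
    (hF : FZX (n - 1)) (κ : List Kd) (hκ : κ.length + 3 ≤ n) :
    CellX H hTop hF h (ExWX X H hTop hF) (Kd.one :: Kd.one :: κ) := by
  intro o
  refine Eventually.of_forall fun g R hX hth hkd => ?_
  exfalso
  have h1 := hkd 1 (by simp)
  have h2 : deriv (fun a => LvL hn P P' o 1 a a) g = 1 := h1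
  have h3 := hX.2.1.2 ⟨1, by omega⟩ le_rfl
  rw [slo_slN, slN_lvl o (by show (1 : ℕ) ≤ n - 1; omega)] at h3
  exact absurd h3 (by
    show ¬ (1 : ℝ) < deriv (fun a => LvL hn P P' o 1 a a) g
    rw [h2]
    exact lt_irrefl _)

/-- The first coordinate is thin. -/
theorem thn_zero (H : PkT hn S P r P' Λ PB) (hTop : TopS n) (hF : FZX (n - 1)) (o : Od n) :
    ∀ᵐ g : ℝ, g ∈ Gs P r P' Λ o → ThN hn P P' PB o 0 g := by
  filter_upwards [one_zero H hTop hF o, H.thn_one hTop hF] with g k0 k1 ho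
  exact k1 o ho 0 (Nat.zero_le _) (by rw [slN_lvl o (Nat.zero_le _)]; exact k0 ho)

end

/-- **The ties at the top speed which are covered by (T)**: all coordinates of the base are thin or
static, at most one is not thin; the facts are a hypothesis. -/
def LTaYX (X : WinC) (n : ℕ) : Prop :=
  AllP n fun {hn} {_} {P} {_} {P'} {_} {PB} {_} H hTop hF h hρ =>
    ExY H hTop hF hρ h (ExWX X H hTop hF) →
    NoB H hTop hF hρ h fun o g => (ExWX X H hTop hF o g ∧ TiW hn P P' o g ∧
      TopA n (slo H hTop hF o g) (deriv (fun a => P a a) g)) ∧ OneG hn P P' PB o g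

/-- **The ties at the top speed** which are covered by (T). -/
theorem lTaYX {X : WinC} {n : ℕ} (hn4 : n ≤ 4) (hT : MicTStmt TopF) : LTaYX X n := by
  intro hi hn hZ hF hTop S P r P' Λ PB H h hh hh1 ρ hρ hrow hE
  refine (noB_T hT hn4 hZ hh hh1 hE).mono fun o => Eventually.of_forall fun g _ hX => ?_
  obtain ⟨⟨h1, h4, h2⟩, h3⟩ := hX
  exact ⟨⟨h1.1, slLe_top h2, h4, h3⟩, h1⟩

/-- **The extremal rows**: at the windows `ExWX X` the base is thin or static. -/
theorem lExW_ths {X : WinC} {n : ℕ} (hn4 : n ≤ 4) (hi : ∀ k, 2 ≤ k → k < n → Ext0 k) :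
    Tol fun η => AllC n η fun {hn} {_} {P} {_} {P'} {_} {PB} H hTop hF h =>
      ∀ o : Od n, ∀ᵐ g : ℝ, RwH H hTop hF h o g → ExWX X H hTop hF o g →
        ∀ l < n - 1, ThS hn P P' PB o l g := by
  have c1 : 3 ≤ n → LCellA n [Kd.one] := fun _ => lCellA_one n
  have c2 : 3 ≤ n → LCellA n [Kd.one, Kd.thin] := fun h => Pool.C2T.lCellA_one_thin h
  have c3 : 3 ≤ n → LCellA n [Kd.one, Kd.sta] := fun h => lCellA_sta h
  by_cases h3 : 3 ≤ n
  swap
  · refine Tol.of_all fun η _ _ => ?_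
    intro hn hZ hF hTop D hD hD1 hE S P r P' Λ PB H o
    filter_upwards [thn_zero H hTop hF o] with g k0 R hX l hl
    obtain rfl : l = 0 := by omega
    exact Or.inl (k0 R.rwd.mem)
  refine ((c1 h3 hi).and ((c2 h3 hi).and (c3 h3 hi))).mono fun η h => ?_
  obtain ⟨a1, a2, a3⟩ := h
  intro hn hZ hF hTop D hD hD1 hE S P r P' Λ PB H o
  have hbig := TwoX.big (X := ExWX X H hTop hF) (fun i b1 b2 =>
    twoX_of H hTop hF b1 (by omega) fun κ hκ => by
      match κ with
      | [] => exact CellX.of (a1 hn hZ hF hTop D hD hD1 hE S P r P' Λ PB H) _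
      | Kd.one :: κ => exact exWX_cell H hTop hF κ (by simp at hκ; omega)
      | [Kd.thin] => exact CellX.of (a2 hn hZ hF hTop D hD hD1 hE S P r P' Λ PB H) _
      | [Kd.sta] => exact CellX.of (a3 hn hZ hF hTop D hD hD1 hE S P r P' Λ PB H) _
      | Kd.thin :: _ :: _ => exact absurd hκ (by simp; omega)
      | Kd.sta :: _ :: _ => exact absurd hκ (by simp; omega)) o
  filter_upwards [hbig, ths_of H hTop hF] with g k1 k2 R hX
  exact k2 o R.rwd.mem fun i b1 b2 => k1 R hX i b1 b2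

/-- **The windows with ties at the top speed which are not covered by (T)**: the base is thin or
static, and there are two static coordinates. -/
def LTbYX (X : WinC) (n : ℕ) : Prop := (∀ k, 2 ≤ k → k < n → Ext0 k) →
  Tol fun η => AllX n η fun {hn} {_} {P} {_} {P'} {_} {PB} H hTop hF h _ =>
    ExY H hTop hF (H.rle h) h (ExWX X H hTop hF) →
    NoB H hTop hF (H.rle h) h fun o g => (ExWX X H hTop hF o g ∧ TiW hn P P' o g ∧
      TopA n (slo H hTop hF o g) (deriv (fun a => P a a) g)) ∧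
      (∀ l < n - 1, ThS hn P P' PB o l g) ∧ ¬ OneG hn P P' PB o g

/-- **The ties at the top speed**, from (T) and the windows which are not covered by (T). -/
theorem lTq1YX_T {X : WinC} {n : ℕ} (hn4 : n ≤ 4) (hT : MicTStmt TopF)
    (hb : LTbYX X n) : LTq1YX X n := fun hi => by
  refine ((hb hi).and ((lExW_ths (X := X) hn4 hi).and (Tol.le (1 / 2) (by norm_num)))).mono
    fun η hη => ?_
  obtain ⟨hη1, hη2, h5⟩ := hη
  intro hn hZ hF hTop D hD hD1 hEx
  have e1 := h5 D hD
  obtain ⟨x₁, a1, b1⟩ := hη1 hn hZ hF hTop D hD hD1 hEx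
  refine ⟨x₁, a1, fun x h3 h4 S P r P' Λ PB H hE => ?_⟩
  have hh : 0 < (1 - η D) * D := mul_pos (by linarith) hD
  have hh1 : (1 - η D) * D ≤ 1 := by nlinarith
  refine ((b1 x h3 h4 S P r P' Λ PB H hE).or (lTaYX (X := X) hn4 hT hi hn hZ hF hTop S P r P' Λ PB
    H ((1 - η D) * D) hh hh1 _ (H.rle ((1 - η D) * D)) (rt_def H.rate.lip H.rate.mono _)
    hE)).mono fun o => ?_
  filter_upwards [hη2 hn hZ hF hTop D hD hD1 hEx S P r P' Λ PB H o,
    H.rwH_chg hTop hF ((1 - η D) * D) o] with g k1 k2 R hX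
  have hths := k1 (k2 R) hX.1
  by_cases hc : OneG hn P P' PB o g
  · exact Or.inr ⟨hX, hc⟩
  · exact Or.inl ⟨hX, hths, hc⟩

/-- In dimension three the windows with a tie are covered by (T). -/
theorem lTbYX_three {X : WinC} : LTbYX X 3 := fun _ => by
  refine Tol.of_all fun η h0 _ => ?_
  intro hn hZ hF hTop D hD hD1 hEx
  have hη := h0 D hD
  refine ⟨(1 + η D) * D + 1, by linarith, fun x _ _ S P r P' Λ PB H hE => noB_false fun o => ?_⟩
  filter_upwards [thn_zero H hTop hF o] with g k0 R hX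
  obtain ⟨-, h1, h2⟩ := hX
  refine h2 ⟨h1, 1, by omega, fun k hk hkl => ?_⟩
  obtain rfl : k = 0 := by omega
  exact k0 R.mem

/-- **The ties at the top speed in dimension three**, from (T). -/
theorem lTq1YX_three {X : WinC} (hT : MicTStmt TopF) : LTq1YX X 3 :=
  lTq1YX_T (by norm_num) hT lTbYX_three

end Pool.ASM
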