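import Pool.Agent.H68.STAT.FulG
import Pool.Agent.H78.TT.Stm

/-!
# The labels do not see the last digits of the positions

`slp_gdat`: the line side of the exact labels of a grid, at points with the exact time of the sample
and positions near the positions of the sample up to `J` digits.
-/

set_option autoImplicit false

namespace Pool.STAT

open Finset MvPolynomial
open Pool.Agent.H49.Ent Pool.Agent.H32.Dense Pool.STK Pool.KS3 Pool.KA Pool.KSAT Pool.PB Pool.GEN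
open Pool.K2S

namespace CLO

/-- **The labels do not see the last digits of the positions**, one place of a grid. -/
theorem slp_gdat (n K K' s₁ : ℕ) (sh : ℕ → ℕ) (hK' : 1 ≤ K') : ∃ s₂ : ℕ,
    ∀ {m J : ℕ} {F : Fam m J} {D : GDat F} {c : ℕ → Fin m} {M a₀ w₀ z : ℕ} {e : ℕ → ℕ → ℕ}
    {g : ℕ → ℕ → ℕ → ℕ} {B : F.Ω → Prop}, D.Ok c n K K' s₁ sh a₀ w₀ z M e g B → Inj c n →
    a₀ + M * z ≤ J → w₀ + M * z ≤ a₀ → ∀ i ≤ M, ∀ j ≤ M, (∀ l < n, sh (l + 1) ≤ g i j l) →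
    ∀ gm y : ℕ, (∀ l < n, g i j l ≤ gm) → e i j + gm + y + s₂ ≤ J → ∀ ω, B ω →
    ∀ b : ℕ → ℝ, b 0 = F.t ω → ∀ l, 1 ≤ l → l ≤ n →
    (∀ k, 1 ≤ k → k < l → |b k - cx F (fun i => c (i - 1)) ω k| ≤ 1 / 2 ^ J) →
    |eval b (D.PL i j (D.zL i j (slam F (w₀ + j * z) ω)) l) -
      eval (cx F (fun i => c (i - 1)) ω) (D.PL i j (D.zL i j (slam F (w₀ + j * z) ω)) l)| ≤
        1 / 2 ^ (g i j (l - 1) - sh l + y) := by
  obtain ⟨K₂, hK₂⟩ : ∃ K₂, K₂ = max K K' := ⟨_, rfl⟩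
  obtain ⟨C₁, hC₁, hdil⟩ := dil n K₂
  obtain ⟨K₁, hK₁⟩ : ∃ K₁, K₁ = K₂ * (K₂ + 1) ^ (n + 1) := ⟨_, rfl⟩
  rw [← hK₁] at hdil
  obtain ⟨Kc, hKc⟩ : ∃ Kc, Kc = max K₁ K' := ⟨_, rfl⟩
  have hKc1 : 1 ≤ Kc := by rw [hKc]; exact hK'.trans (le_max_right _ _)
  obtain ⟨s₀, hs₀⟩ := pow_unbounded_of_one_lt (C₁ * (1 + (K' * 2 * 2 : ℝ) ^ K'))
    (one_lt_two (α := ℝ))
  obtain ⟨L, s₃, hL, hnear⟩ := near_gx n n K Kc s₀ sh le_rfl hKc1
  obtain ⟨q₁, hq₁⟩ := pow_unbounded_of_one_lt L (one_lt_two (α := ℝ))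
  have p2 : ∀ k : ℕ, (0 : ℝ) < 2 ^ k := fun k => by positivity
  refine ⟨s₃ + q₁, ?_⟩
  intro m J F D c M a₀ w₀ z e g B h hc haM hwM i hi j hj hsh gm y hgm hsiz ω hω b hb0 l hl1 hl hb
  have hai : a₀ + i * z ≤ J := by
    have : i * z ≤ M * z := Nat.mul_le_mul_right _ hi
    omega
  have hwj : w₀ + j * z ≤ a₀ + i * z := by
    have h1 : j * z ≤ M * z := Nat.mul_le_mul_right _ hj
    have h2 : 0 ≤ i * z := Nat.zero_le _
    omega
  have hch := h.chn i hi j hj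
  have hO := h.out i hi j hj
  have hR := raw2_of (hwj.trans hai) hc (fun _ _ => le_rfl) hch
  obtain ⟨Φ, hΦ⟩ : ∃ Φ, Φ = D.PL i j (D.zL i j (slam F (w₀ + j * z) ω)) := ⟨_, rfl⟩
  obtain ⟨Φ', hΦ'⟩ : ∃ Φ' : ℕ → PN, Φ' = fun i => if i = 0 then MvPolynomial.C (F.t ω)
    else Φ i := ⟨_, rfl⟩
  have eΦ : ∀ j, 1 ≤ j → Φ' j = Φ j := fun j hj => by
    rw [hΦ']
    exact if_neg (by omega)
  have hΦtri : TriN Φ := by rw [hΦ]; exact hO.Ltri _
  have hΦdeg : ∀ k, (Φ k).totalDegree ≤ K' := fun k => by rw [hΦ]; exact hO.Ldeg _ k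
  obtain ⟨Γ, hΓ⟩ : ∃ Γ, Γ = Gx c n (D.G i j) (ptr F J ω) := ⟨_, rfl⟩
  have hΓtri : TriN Γ := by rw [hΓ]; exact hR.G_tri _
  have hΓdeg : ∀ k, (Γ k).totalDegree ≤ K := fun k => by rw [hΓ]; exact hR.G_deg _ k
  -- near on the unit box
  have unit : ∀ k, 1 ≤ k → k ≤ n → ∀ b : ℕ → ℝ, Bxr 1 (gt0 (a₀ + i * z) fun l => g i j (l - 1)) Γ k b →
      |eval b (Φ k) - eval b (Γ k)| ≤ (1 + (K' * 2 * 2 : ℝ) ^ K') / 2 ^ g i j (k - 1) := by
    intro k hk1 hk b hb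
    have hbx : ∀ k' ≤ k, 1 ≤ k' → |eval b (Γ k') -
        eval b (Hx c n (w₀ + j * z) (D.H i j) (slam F (w₀ + j * z) ω) k')| ≤
          1 / 2 ^ g i j (k' - 1) := by
      intro k' hk' hk1'
      have h1 := hR.near ω hω k' hk1' (hk'.trans hk) b (fun l hl => by
        have h2 := hb l (hl.trans_le hk')
        rw [hΓ] at h2
        exact h2)
      rw [hΓ]
      exact h1
    have hbox : Bxr 2 (gt0 (w₀ + j * z) fun l => g i j (l - 1))
        (Hx c n (w₀ + j * z) (D.H i j) (slam F (w₀ + j * z) ω)) k b := by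
      intro k' hk'
      rcases Nat.eq_zero_or_pos k' with rfl | hk1'
      · have h1 := hb 0 hk'
        rw [hΓ, hR.G_zero, eval_C, gt0_zero] at h1
        rw [gt0_zero, hR.H_zero, eval_C]
        have h2 := hR.time ω hω
        have h3 : (1 : ℝ) / 2 ^ (a₀ + i * z) ≤ 1 / 2 ^ (w₀ + j * z) :=
          one_div_le_one_div_of_le (p2 _) (pow_le_pow_right₀ (by norm_num) hwj)
        have e2 : (2 : ℝ) / 2 ^ (w₀ + j * z) = 1 / 2 ^ (w₀ + j * z) + 1 / 2 ^ (w₀ + j * z) := by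
          ring
        rw [e2]
        rw [abs_le] at h1 h2 ⊢
        constructor <;> linarith [h1.1, h1.2, h2.1, h2.2]
      · have h1 := hb k' hk'
        have h2 := hbx k' hk'.le hk1'
        rw [gt0_pos _ _ hk1'] at h1 ⊢
        have e2 : (2 : ℝ) / 2 ^ g i j (k' - 1) = 1 / 2 ^ g i j (k' - 1) + 1 / 2 ^ g i j (k' - 1) := by
          ring
        show |b k' - eval b (Hx c n (w₀ + j * z) (D.H i j) (slam F (w₀ + j * z) ω) k')| ≤
          2 / 2 ^ g i j (k' - 1)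
        rw [e2]
        have h1' : |b k' - eval b (Γ k')| ≤ 1 / 2 ^ g i j (k' - 1) := h1
        rw [abs_le] at h1' h2 ⊢
        constructor <;> linarith [h1'.1, h1'.2, h2.1, h2.2]
    have h1 := (hO.nrL ω hω).2 k hk1 (by omega) 2 (by norm_num) b hbox
    have h2 := hbx k le_rfl hk1
    rw [gt0_pos _ _ hk1] at h1
    have h1' : |eval b (Φ k) - eval b (Hx c n (w₀ + j * z) (D.H i j)
        (slam F (w₀ + j * z) ω) k)| ≤ (K' * 2 * 2 : ℝ) ^ K' / 2 ^ g i j (k - 1) := by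
      rw [hΦ]
      exact h1
    rw [add_div]
    rw [abs_le] at h1' h2 ⊢
    constructor <;> linarith [h1'.1, h1'.2, h2.1, h2.2]
  have hgΓ : ∀ l, gg (a₀ + i * z) (g i j) l = gt0 (a₀ + i * z) (fun l => g i j (l - 1)) l :=
    fun l => rfl
  have hΓ' : Γ = sy c n (F.t ω) (D.G i j (ptr F J ω)) := by
    rw [hΓ]
    unfold Gx
    rw [tx_eq]
  have hNr : Nr Kc (2 ^ s₀) (gg (a₀ + i * z) (g i j)) Φ' (sy c n (F.t ω) (D.G i j (ptr F J ω)))
      (n + 1) := by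
    rw [← hΓ']
    refine ⟨?_, fun k hk1 hk ρ hρ b hb => ?_⟩
    · rw [hΦ', hΓ', sy_zero]
      exact if_pos rfl
    · rw [eΦ k hk1]
      have h1 := hdil Γ (gg (a₀ + i * z) (g i j)) (Φ k - Γ k) k
        ((1 + (K' * 2 * 2 : ℝ) ^ K') / 2 ^ g i j (k - 1)) ρ hΓtri
        (fun j => (hΓdeg j).trans (by rw [hK₂]; exact le_max_left _ _)) (by omega)
        (AdxRow.vars_sub_le (hΦtri k) (hΓtri k))
        ((totalDegree_sub _ _).trans (max_le ((hΦdeg k).trans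
          (by rw [hK₂]; exact le_max_right _ _)) ((hΓdeg k).trans
          (by rw [hK₂]; exact le_max_left _ _)))) hρ (fun b hb => by
          rw [map_sub]
          exact unit k hk1 (by omega) b hb) b hb
      rw [map_sub] at h1
      have e1 : gg (a₀ + i * z) (g i j) k = g i j (k - 1) := if_neg (by omega)
      rw [e1]
      refine h1.trans ?_
      have e2 : C₁ * ((1 + (K' * 2 * 2 : ℝ) ^ K') / 2 ^ g i j (k - 1)) * ρ ^ K₁ =
          (C₁ * (1 + (K' * 2 * 2 : ℝ) ^ K') * ρ ^ K₁) / 2 ^ g i j (k - 1) := by ring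
      rw [e2]
      refine div_le_div_of_nonneg_right ?_ (p2 _).le
      have hρ0 : (0 : ℝ) ≤ ρ := by linarith
      have hKc' : (1 : ℝ) ≤ Kc := by exact_mod_cast hKc1
      have hs1 : (1 : ℝ) ≤ 2 ^ s₀ := one_le_pow₀ (by norm_num)
      have f1 : (1 : ℝ) ≤ Kc * 2 ^ s₀ := by nlinarith
      have f2 : ρ ≤ Kc * 2 ^ s₀ * ρ := by nlinarith
      calc C₁ * (1 + (K' * 2 * 2 : ℝ) ^ K') * ρ ^ K₁ ≤ 2 ^ s₀ * ρ ^ Kc := by
            refine mul_le_mul hs₀.le (pow_le_pow_right₀ hρ (by rw [hKc]; exact le_max_left _ _))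
              (by positivity) (by positivity)
        _ ≤ (Kc * 2 ^ s₀) ^ Kc * ρ ^ Kc := by
            refine mul_le_mul_of_nonneg_right ?_ (by positivity)
            have f3 : (2 : ℝ) ^ s₀ ≤ Kc * 2 ^ s₀ := by nlinarith
            exact f3.trans (le_self_pow₀ f1 (by omega))
        _ = (Kc * 2 ^ s₀ * ρ) ^ Kc := by rw [← mul_pow]
  have hlip : ∀ k < n, ∀ b : Option (Fin m) → ℝ,
      NBx c (D.G i j (ptr F J ω)) (g i j) (a₀ + i * z) (F.t ω) k b → ∀ l < k,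
      |eval b (pderiv (some (c l)) (D.G i j (ptr F J ω) k))| ≤ 2 ^ (e i j + (gm - g i j k)) := by
    intro k hk b hb l hl
    refine (hch.lip ω hω k hk b hb l hl).trans (pow_le_pow_right₀ (by norm_num) ?_)
    unfold nlp
    have h1 : (Finset.Icc l k).sup (g i j) ≤ gm := Finset.sup_le fun j hj => by
      rw [Finset.mem_Icc] at hj
      exact hgm j (by omega)
    omega
  have h1 := hnear m J F c (a₀ + i * z) (g i j) (fun k => e i j + (gm - g i j k)) (y + q₁)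
    (D.G i j (ptr F J ω)) Φ' ω hai hc (fun k _ => hch.degG _ k) (hch.depG _) hlip
    (fun k hk1 _ => by
      rw [eΦ k hk1]
      exact hΦtri k)
    (fun k hk1 _ => by
      rw [eΦ k hk1]
      exact (hΦdeg k).trans (by rw [hKc]; exact le_max_right _ _))
    (by rw [hΦ']; exact if_pos rfl) hNr
    (fun k hk1 hk => by
      rw [eΦ k hk1, hΦ]
      exact hO.hgt ω hω k hk1 hk)
    hsh
    (fun k hk => by
      have h2 := hgm k hk
      show g i j k + (y + q₁) + (e i j + (gm - g i j k)) + s₃ ≤ J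
      omega) b hb0 l hl1 hl hb
  rw [eΦ l hl1, hΦ] at h1
  refine h1.trans ?_
  rw [← Nat.add_assoc, pow_add (2 : ℝ) (g i j (l - 1) - sh l + y) q₁,
    div_le_div_iff₀ (by positivity) (p2 _), one_mul]
  have := mul_le_mul_of_nonneg_left hq₁.le (p2 (g i j (l - 1) - sh l + y)).le
  linarith

end CLO

end Pool.STAT
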