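import Pool.Agent.H78.TT.SubT

/-!
# Labels with gain of a coordinate on large events of the boxes

`VcoI`: labels with gain of a coordinate on large events of the boxes; `vcoI_con`: this holds if the
coordinates before are rough.
-/

set_option autoImplicit false

namespace Pool.STAT

open Finset MvPolynomial
open Pool.Agent.H49.Ent Pool.Agent.H32.Dense Pool.STK Pool.KS3 Pool.KA Pool.KSAT Pool.PB Pool.GEN
open Pool.K2S Pool.S6C
open Pool.STAT.CLO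

/-- A label with gain of a larger class, near to the labels of the grid to more digits. -/
theorem CoL.mono {m J : ℕ} {F : Fam m J} {D : GDat F} {c : ℕ → Fin m}
    {l K₂ K₂' a₀ w₀ z x M S S' : ℕ} {g : ℕ → ℕ → ℕ → ℕ} {pr : ℕ} {UD : Pt2 F → PN}
    {UL : Ln2 F × ℕ → PN} {A : F.Ω → Prop} (h : CoL D c l K₂ a₀ w₀ z x M S g pr UD UL A)
    (hK : K₂ ≤ K₂') (hS : S ≤ S') : CoL D c l K₂' a₀ w₀ z x M S' g pr UD UL A := by
  refine ⟨fun y => (h.dD y).trans hK, fun y => (h.dL y).trans hK, h.vD, h.vL, h.own,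
    fun i hi j hj ω hω b hb hu => ?_⟩
  obtain ⟨h1, h2⟩ := h.two i hi j hj ω hω b hb hu
  refine ⟨h1, h2.trans (div_le_div_of_nonneg_right ?_ (by positivity))⟩
  exact pow_le_pow_right₀ (by norm_num) (Nat.mul_le_mul_right _ hS)

theorem KitP.wco_mono {Θ : Type*} {m n₀ : ℕ} (Kt : KitP m Θ n₀) {l K₂ K₂' S₂ S₂' : ℕ}
    (hK : K₂ ≤ K₂') (hS : S₂ ≤ S₂') {p : Θ} {N M : ℕ} {θ : ℝ} {J : ℕ} {F : Fam m J}
    {D : GDat F} {A : F.Ω → Prop} (h : Kt.Wco l K₂ S₂ p N M θ J F D A) :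
    Kt.Wco l K₂' S₂' p N M θ J F D A := by
  obtain ⟨g, pr, UD, UL, h1, h2, h3⟩ := h
  exact ⟨g, pr, UD, UL, h1, h2, h3.mono hK hS⟩

end Pool.STAT

namespace Pool.PKG

open MeasureTheory Set Filter Topology
open Pool.Agent.H49.Ent Pool.Agent.H32.Dense Pool.STK Pool.KA Pool.KSAT Pool.K2S Pool.PB
open Pool.GEN Pool.S6C Pool.STAT Pool.CHT Pool.GRW Pool.ONE Pool.STA
open Pool.LBT (LSys ThrOf)
open Pool.LEV (Law Lv)
open Pool.ALL (RateOf)
open Pool.TOP (TopS)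
open Pool.RTS (iso Diag)
open Pool.STR (NumI CellD RowD NfB AffB Rle Nw)
open Pool.ISO (ChI)
open Pool.CHB (chsysB)
open Pool.STAT.CLO Pool.MIC6
open Pool.P4 (NFc1)

variable {n : ℕ} {hn : 2 ≤ n} {S : PCl n} {P : ℝ → ℝ → ℝ} {rr : ℝ → ℝ}
  {P' : ℕ → List (Fin n) × Fin n → ℝ → ℝ → ℝ} {Λ : Finset (Fin n) → Fin n → ℝ → ℝ → ℝ}
  {PB : ℕ → List (Fin n) × Fin n → ℝ → ℝ → ℝ}
  (H : PkT hn S P rr P' Λ PB) {hTop : TopS n} {hF : FZX (n - 1)} {h : ℝ}
  {ρ' : ℝ → ℝ} {hρ : Rle rr ρ'}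

/-- **Labels with gain** of the coordinate `l` on large events of the boxes. -/
def VcoI (p : ((H.nk hTop hF).chg hρ H.up).Par) (l : ℕ) (I : ℝ → BS p.cell → Prop) : Prop :=
  ∀ (K K' s₁ : ℕ) (sh : ℕ → ℕ), 1 ≤ K → 1 ≤ K' → ∃ K₂ S₂ : ℕ, ∀ M : ℕ, EvQ I fun N θ q =>
    ∀ (b : ℕ → ℕ → ℕ → ℝ) (e : ℕ → ℕ → ℝ), (kitN H p K).kit.Near q N M θ b e →
      ∃ C : ℝ, 1 ≤ C ∧ Bas S fun J F A => ∀ D : GDat F,
        ((kitN H p K).kit.grid K' s₁ sh q N M θ b e).Ok F D A →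
        ∃ B : F.Ω → Prop, Sub B A ∧ Pe F.p A ≤ C * Pe F.p B ∧
          (kitN H p K).kit.Wco l K₂ S₂ q N M θ J F D B

/-- **Labels with gain**, the coordinates before are rough. -/
theorem vcoI_con {p : ((H.nk hTop hF).chg hρ H.up).Par} (hpI : AdP H p)
    {ι : Type} {kd : p.cell.α → ι} {c β h' M : ℝ} {x : ι} (hc : 0 < c) (hβ : 0 < β)
    (hsrt : ∀ ε q, IsK p.cell kd c β h' M x ε q → ∀ k < n - 1, ∀ k' < k,
      dgN hn P P' (show Od n from q.k.2) k' q.g ≤ dgN hn P P' (show Od n from q.k.2) k q.g)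
    {PW : ℕ → List (Fin n) × Fin n → ℝ → ℝ → ℝ}
    (hPW : ∀ j, ThrOf (chsysB n none (P' j)) S (PW j)) {l₀ : ℕ} (hl₀ : l₀ < n - 1)
    (hrgh : ∀ l < l₀, ∀ ε' : ℝ, 0 < ε' → EvP (IsK p.cell kd c β h' M x) fun q =>
      Box7 q.g q.r fun a w => bet (PW (show Od n from q.k.2).2)
        (cc hn (show Od n from q.k.2).1.1) l a w ≤
          dgN hn P P' (show Od n from q.k.2) l w + (a - w) + ε' * q.r)
    {DT : ℕ} (hgn : EvP (IsK p.cell kd c β h' M x) fun q =>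
      GnW hn S P P' (show Od n from q.k.2) DT l₀ q.g q.r) :
    VcoI H p l₀ (IsK p.cell kd c β h' M x) := by
  intro K₀ K' s₁ sh hK₀ hK'
  have hI' := isK_mono p.cell kd c β h' M x
  have fcel := kit_cel H hpI (kd := kd) (h' := h') (M := M) hc hβ x K₀
  obtain ⟨S₂, hVc⟩ := hV_con hI' H.tmh (kitN H p K₀).kit (fun _ _ _ => rfl)
    (fun q => kit_inj H p K₀ q.k) (s₁ := s₁) (sh := sh) hK' fcel
    (be := fun q => P' (show Od n from q.k.2).2)
    (P := fun q => PW (show Od n from q.k.2).2) (fun q => hPW _) (l := l₀) (by omega)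
    (fun q k hk a w h0 h1 h2 => kit_Lp H q (by omega) a w h0 h1 h2)
    (fun k hk => kit_rgh H K₀ hPW (hrgh k hk))
    (kit_srt H K₀ hsrt hl₀) (DT := DT) (hgn.mono fun q h1 => by
      obtain ⟨aT, wT, eT, β', K₁, k1, k2, k3⟩ := h1
      refine ⟨aT, wT, eT, β', K₁, k1, ?_, k3⟩
      have e1 : (kitN H p K₀).kit.L q = fun k => iso (dgN hn P P' (show Od n from q.k.2) k) := by
        funext k
        show iso ((kitN H p K₀).Dg q k) = _
        rw [kit_dg H q k]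
      rw [e1]
      exact k2)
  exact ⟨max (kitN H p K₀).kit.K DT, S₂, hVc⟩

/-- The levels on the boxes of a coordinate with gain. -/
theorem kit_gain {p : ((H.nk hTop hF).chg hρ H.up).Par} {ι : Type}
    {kd : p.cell.α → ι} {c β h' M : ℝ} {x : ι} (K₀ : ℕ) {l₀ : ℕ}
    (hcon : ∀ ε' : ℝ, 0 < ε' → EvP (IsK p.cell kd c β h' M x) fun q =>
      Box7 q.g q.r fun a w => dgN hn P P' (show Od n from q.k.2) l₀ w + 2 * (a - w) ≤
        bet (P' (show Od n from q.k.2).2) (cc hn (show Od n from q.k.2).1.1) l₀ a w + ε' * q.r) :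
    EvP (IsK p.cell kd c β h' M x) fun q => ∀ a w : ℝ, ((kitN H p K₀).kit.y q).1 ≤ w →
      w ≤ ((kitN H p K₀).kit.y q).1 + (kitN H p K₀).kit.X q / 16 →
      ((kitN H p K₀).kit.y q).1 + ((kitN H p K₀).kit.y q).2 ≤ a →
      a ≤ ((kitN H p K₀).kit.y q).1 + ((kitN H p K₀).kit.y q).2 + (kitN H p K₀).kit.X q / 16 →
      (kitN H p K₀).kit.L q l₀ a w + (kitN H p K₀).kit.X q / 32 ≤
        bet (P' (show Od n from q.k.2).2) ((kitN H p K₀).kit.cs q) l₀ a w := by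
  have hI' := isK_mono p.cell kd c β h' M x
  refine ((hcon (1 / 32) (by norm_num)).and hI' (EvP.self _ one_pos)).mono
    fun q hq a w h1 h2 h3 h4 => ?_
  obtain ⟨hc1, hq⟩ := hq
  have hr := hq.is.r0
  change q.g ≤ w at h1
  change w ≤ q.g + q.r / 16 at h2
  change q.g + q.r ≤ a at h3
  change a ≤ q.g + q.r + q.r / 16 at h4
  have h5 := hc1 a w (by linarith) (by linarith) (by linarith)
  have h6 : (kitN H p K₀).kit.L q l₀ = iso (dgN hn P P' (show Od n from q.k.2) l₀) := by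
    show iso ((kitN H p K₀).Dg q l₀) = _
    rw [kit_dg H q l₀]
  have h7 := Pool.RTS.iso_le (dgN hn P P' (show Od n from q.k.2) l₀) a w
  show (kitN H p K₀).kit.L q l₀ a w + q.r / 32 ≤
    bet (P' (show Od n from q.k.2).2) (cc hn (show Od n from q.k.2).1.1) l₀ a w
  rw [h6]
  linarith

end Pool.PKG
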